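import Pool.Agent.Lib.OrlovTate.Numbers
import Pool.Agent.Lib.OrlovNef.Datum
import Pool.Agent.Lib.OrlovNef.Jordan

/-!
# Betti numbers and the primitive decomposition
-/

set_option autoImplicit false

open scoped TensorProduct ComplexOrder

namespace Pool.Agent.Lib.OrlovNef

open Pool.Agent.Lib.OrlovSig

namespace HL

variable {d : ℕ} {V V' : Type*} [AddCommGroup V] [Module ℚ V] [AddCommGroup V'] [Module ℚ V']

/-- The dimension of the part of degree `j` of the `m`-th primitive part. -/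
noncomputable def primBetti (X : HL d V) (g : ℕ → Module.End ℚ V) (m j : ℕ) : ℕ :=
  Module.finrank ℚ (LinearMap.range (ind (g m) (X.pr j)))

/-- The degree `j` part on the `i`-th strand. -/
noncomputable def strandPr (X : HL d V) (g : ℕ → Module.End ℚ V) (j : ℕ) (i : Idx d) :
    Module.End ℚ (LinearMap.range (g i.1)) :=
  if 2 * (i.2 : ℕ) ≤ j then ind (g i.1) (X.pr (j - 2 * i.2)) else 0

theorem strandPr_pos (X : HL d V) (g : ℕ → Module.End ℚ V) {j : ℕ} (i : Idx d)
    (h : 2 * (i.2 : ℕ) ≤ j) : strandPr X g j i = ind (g i.1) (X.pr (j - 2 * i.2)) := if_pos h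

theorem strandPr_neg (X : HL d V) (g : ℕ → Module.End ℚ V) {j : ℕ} (i : Idx d)
    (h : ¬ 2 * (i.2 : ℕ) ≤ j) : strandPr X g j i = 0 := if_neg h

theorem pr_strand {X : HL d V} {P : X.Nef} {g : ℕ → Module.End ℚ V} (h : Fam P g) (j : ℕ)
    (i : Idx d) (w : LinearMap.range (g i.1)) :
    X.pr j ((P.op ^ (i.2 : ℕ)) (inc (g i.1) w)) =
      (P.op ^ (i.2 : ℕ)) (inc (g i.1) (strandPr X g j i w)) := by
  unfold strandPr
  split_ifs with hk
  · have h1 := P.op_pow_pr (i.2 : ℕ) (j - 2 * i.2) (inc (g i.1) w)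
    rw [Nat.sub_add_cancel hk] at h1
    rw [← h1, ← (h i.1).inc_pr]
  · rw [LinearMap.zero_apply, map_zero, map_zero]
    have h1 := LinearMap.congr_fun ((P.deg.pow (i.2 : ℕ)).pr_mul j (by omega)) (inc (g i.1) w)
    exact h1

theorem pr_total {X : HL d V} {P : X.Nef} {g : ℕ → Module.End ℚ V} (h : Fam P g) (j : ℕ)
    (x : (i : Idx d) → LinearMap.range (g i.1)) :
    X.pr j (total P g x) = total P g (fun i => strandPr X g j i (x i)) := by
  rw [total_apply, total_apply, map_sum]
  exact Finset.sum_congr rfl (fun i _ => pr_strand h j i (x i))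

theorem strandPr_idem {X : HL d V} {P : X.Nef} {g : ℕ → Module.End ℚ V} (h : Fam P g) (j : ℕ)
    (i : Idx d) (w : LinearMap.range (g i.1)) :
    strandPr X g j i (strandPr X g j i w) = strandPr X g j i w := by
  unfold strandPr
  split_ifs with hk
  · apply Subtype.ext
    have h1 := (h i.1).inc_pr (j - 2 * i.2) (ind (g i.1) (X.pr (j - 2 * i.2)) w)
    have h2 := (h i.1).inc_pr (j - 2 * i.2) w
    have h3 := LinearMap.congr_fun (X.pr_self (j - 2 * i.2)) (inc (g i.1) w)
    rw [Module.End.mul_apply] at h3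
    rw [h2, h3] at h1
    exact h1.trans h2.symm
  · rfl

/-- The Betti numbers are the sums over the strands. -/
theorem betti_dec [FiniteDimensional ℚ V] {X : HL d V} {P : X.Nef} {g : ℕ → Module.End ℚ V}
    (h : Fam P g) (j : ℕ) :
    X.betti j = ∑ i : Idx d,
      if 2 * (i.2 : ℕ) ≤ j then X.primBetti g i.1 (j - 2 * i.2) else 0 := by
  have e1 : ∀ i : Idx d, (if 2 * (i.2 : ℕ) ≤ j then X.primBetti g i.1 (j - 2 * i.2) else 0) =
      Module.finrank ℚ (LinearMap.range (strandPr X g j i)) := by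
    intro i
    by_cases hk : 2 * (i.2 : ℕ) ≤ j
    · rw [if_pos hk, strandPr_pos _ _ _ hk]
      rfl
    · rw [if_neg hk, strandPr_neg _ _ _ hk, LinearMap.range_zero, finrank_bot]
  simp only [e1]
  rw [← Module.finrank_pi_fintype ℚ]
  set Φ : ((i : Idx d) → LinearMap.range (strandPr X g j i)) →ₗ[ℚ] V :=
    total P g ∘ₗ LinearMap.pi (fun i => (LinearMap.range (strandPr X g j i)).subtype ∘ₗ
      LinearMap.proj i) with hΦ
  have hΦa : ∀ w, Φ w = total P g (fun i => ((w i : LinearMap.range (strandPr X g j i)) :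
      LinearMap.range (g i.1))) := fun w => rfl
  have hinj : Function.Injective Φ := by
    intro w w' hw
    rw [hΦa, hΦa] at hw
    have h1 := h.total_injective hw
    funext i
    exact Subtype.ext (congrFun h1 i)
  have hrange : LinearMap.range Φ = LinearMap.range (X.pr j) := by
    apply le_antisymm
    · rintro _ ⟨w, rfl⟩
      refine ⟨Φ w, ?_⟩
      rw [hΦa, pr_total h]
      congr 1
      funext i
      obtain ⟨y, hy⟩ := (w i).2
      rw [← hy, strandPr_idem h]
    · rintro _ ⟨v, rfl⟩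
      obtain ⟨x, rfl⟩ := h.total_surjective v
      refine ⟨fun i => ⟨strandPr X g j i (x i), ⟨x i, rfl⟩⟩, ?_⟩
      rw [hΦa, pr_total h]
  unfold betti
  rw [← hrange]
  exact LinearMap.finrank_range_of_inj hinj

/-- If the primitive parts `P_m` with `1 ≤ m` have the same Betti numbers, the Betti numbers differ
by those of `P_0`. -/
theorem betti_sub [FiniteDimensional ℚ V] [FiniteDimensional ℚ V'] {X : HL d V} {X' : HL d V'}
    {P : X.Nef} {P' : X'.Nef} {g : ℕ → Module.End ℚ V} {g' : ℕ → Module.End ℚ V'} (h : Fam P g)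
    (h' : Fam P' g') (heq : ∀ m, 1 ≤ m → m ≤ d → ∀ j, X.primBetti g m j = X'.primBetti g' m j)
    (j : ℕ) : (X.betti j : ℚ) - X'.betti j = (X.primBetti g 0 j : ℚ) - X'.primBetti g' 0 j := by
  rw [betti_dec h, betti_dec h']
  push_cast
  rw [← Finset.sum_sub_distrib]
  rw [Finset.sum_eq_single_of_mem (⟨0, 0⟩ : Idx d) (Finset.mem_univ _)]
  · simp
  · rintro ⟨⟨m, hm⟩, ⟨k, hk⟩⟩ - hne
    simp only at hk ⊢
    rcases Nat.eq_zero_or_pos m with h0 | h0
    · subst h0
      exfalso
      apply hne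
      have hk0 : k = 0 := by omega
      subst hk0
      rfl
    · split_ifs with h1
      · rw [heq m h0 (by omega), sub_self]
      · rw [sub_self]

/-- The moment relation for the primitive part `P_0`. -/
theorem moment_prim [FiniteDimensional ℚ V] [FiniteDimensional ℚ V'] {X : HL d V} {X' : HL d V'}
    {P : X.Nef} {P' : X'.Nef} {g : ℕ → Module.End ℚ V} {g' : ℕ → Module.End ℚ V'} (h : Fam P g)
    (h' : Fam P' g') (heq : ∀ m, 1 ≤ m → m ≤ d → ∀ j, X.primBetti g m j = X'.primBetti g' m j)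
    (R : X.LibgoberWood) (R' : X'.LibgoberWood) (u : V ≃ₗ[ℚ] V')
    (hu : X.IsHodge X' u.toLinearMap) (hR : R.c1c = R'.c1c) :
    ∑ j ∈ Finset.range (2 * d + 1), (-1 : ℚ) ^ j * ((j : ℚ) - d) ^ 2 * X.primBetti g 0 j =
      ∑ j ∈ Finset.range (2 * d + 1), (-1 : ℚ) ^ j * ((j : ℚ) - d) ^ 2 * X'.primBetti g' 0 j := by
  have h1 := moment_betti R R' u hu hR
  rw [← sub_eq_zero, ← Finset.sum_sub_distrib] at h1 ⊢
  rw [← h1]
  refine Finset.sum_congr rfl (fun j _ => ?_)
  have h2 := betti_sub h h' heq j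
  have h3 : (X.primBetti g 0 j : ℚ) = X'.primBetti g' 0 j + ((X.betti j : ℚ) - X'.betti j) := by
    rw [h2]
    ring
  rw [h3]
  ring

end HL

end Pool.Agent.Lib.OrlovNef
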