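import Pool.Agent.Lib.OrlovTate.Tate
import Pool.Agent.Lib.OrlovTate.BettiDec
import Pool.Agent.Lib.OrlovRel.Assemble
import Pool.Agent.Lib.OrlovSix.Abs

/-!
# Traces, and the degree two of the primitive part `P_0`
-/

set_option autoImplicit false

open scoped TensorProduct ComplexOrder

namespace Pool.Agent.Lib.OrlovRel

open Pool.Agent.Lib.OrlovSig Pool.Agent.Lib.OrlovNef Pool.Agent.Lib.OrlovChow
  Pool.Agent.Lib.OrlovSix HL

variable {d : ℕ} {V V' : Type*} [AddCommGroup V] [Module ℚ V] [AddCommGroup V'] [Module ℚ V']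

/-- The trace on a ring of endomorphisms of the product. -/
noncomputable def tauS (S : Subalgebra ℚ (Module.End ℚ (V × V'))) : S →ₗ[ℚ] ℚ :=
  LinearMap.trace ℚ (V × V') ∘ₗ S.val.toLinearMap

theorem tauS_comm {S : Subalgebra ℚ (Module.End ℚ (V × V'))} (x y : S) :
    tauS S (x * y) = tauS S (y * x) :=
  LinearMap.trace_mul_comm ℚ (x : Module.End ℚ (V × V')) (y : Module.End ℚ (V × V'))

variable [FiniteDimensional ℚ V] [FiniteDimensional ℚ V']

theorem trace_nonneg' {U : Type*} [AddCommGroup U] [Module ℚ U] [FiniteDimensional ℚ U]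
    (f : Module.End ℚ U) (hf : f * f = f) : 0 ≤ LinearMap.trace ℚ U f := by
  have h : IsIdempotentElem f := hf
  rw [(LinearMap.IsIdempotentElem.isProj_range _ h).trace]
  exact Nat.cast_nonneg _

theorem tauS_nonneg {S : Subalgebra ℚ (Module.End ℚ (V × V'))} (e : S) (he : e * e = e) :
    0 ≤ tauS S e :=
  trace_nonneg' (e : Module.End ℚ (V × V')) (congrArg Subtype.val he)

namespace Motivic

variable {X : HL d V} {X' : HL d V'} {S : Subalgebra ℚ (Module.End ℚ (V × V'))}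

theorem tau_Q₁ (h : Motivic X X' S) (j : ℕ) : tauS S (h.Q₁.π j) = X.betti j := by
  change LinearMap.trace ℚ (V × V') ((h.Q₁.π j : S) : Module.End ℚ (V × V')) = _
  rw [coe_Q₁_π, X.betti_eq_trace]
  change LinearMap.trace ℚ (V × V') (LinearMap.inl ℚ V V' ∘ₗ (X.pr j ∘ₗ LinearMap.fst ℚ V V')) = _
  rw [LinearMap.trace_comp_comm']
  congr 1

theorem tau_Q₂ (h : Motivic X X' S) (j : ℕ) : tauS S (h.Q₂.π j) = X'.betti j := by
  change LinearMap.trace ℚ (V × V') ((h.Q₂.π j : S) : Module.End ℚ (V × V')) = _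
  rw [coe_Q₂_π, X'.betti_eq_trace]
  change LinearMap.trace ℚ (V × V') (LinearMap.inr ℚ V V' ∘ₗ (X'.pr j ∘ₗ LinearMap.snd ℚ V V')) = _
  rw [LinearMap.trace_comp_comm']
  congr 1

theorem betti_of_mvn (h : Motivic X X' S) {j : ℕ} (hi : MvN (h.Q₁.π j) (h.Q₂.π j)) :
    X.betti j = X'.betti j := by
  have h1 := tau_eq (tauS S) tauS_comm hi
  rw [h.tau_Q₁, h.tau_Q₂] at h1
  exact_mod_cast h1

theorem betti_top (Y : HL d V) {j : ℕ} (hj : 2 * d < j) : Y.betti j = 0 := by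
  unfold HL.betti
  rw [Y.pr_top j hj, LinearMap.range_zero, finrank_bot]

/-- The absence of primitive classes, for the package. -/
theorem prim_Q₁ (h : Motivic X X' S) {j : ℕ}
    (hj : ∀ x : V, X.pr j x = x → (X.lef ^ (d - j + 1)) x = 0 → x = 0) (x : V × V')
    (hx : h.Q₁.π j • x = x) (hx0 : h.Q₁.L ^ (d - j + 1) • x = 0) : x = 0 := by
  have hx' : b11 V' (X.pr j) x = x := hx
  rw [b11_apply] at hx'
  have h8 : X.pr j x.1 = x.1 := congrArg Prod.fst hx'
  have h9 : x.2 = 0 := (congrArg Prod.snd hx').symm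
  have h10 : (b11 V' X.lef ^ (d - j + 1)) x = 0 := by
    have e1 : (((h.Q₁.L : S) ^ (d - j + 1) : S) : Module.End ℚ (V × V')) =
        (b11 V' X.lef) ^ (d - j + 1) := SubmonoidClass.coe_pow h.Q₁.L (d - j + 1)
    rw [← e1]
    exact hx0
  rw [b11_pow, b11_apply] at h10
  exact Prod.ext (hj x.1 h8 (congrArg Prod.fst h10)) h9

end Motivic

/-- `f` and `k` are inverse to each other in degree two on the kernels of the nef classes, modulo
`A` and the image. -/
def TwoMaps {X : HL d V} {X' : HL d V'} (P : X.Nef) (P' : X'.Nef) (A : Submodule ℚ V)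
    (A' : Submodule ℚ V') (f : V →ₗ[ℚ] V') (k : V' →ₗ[ℚ] V) : Prop :=
  (∀ x, P.op x = 0 → P'.op (f x) = 0 ∧
    (x ∈ A ⊔ LinearMap.range P.op → f x ∈ A' ⊔ LinearMap.range P'.op) ∧
    k (f x) - X.pr 2 x ∈ A ⊔ LinearMap.range P.op) ∧
  ∀ y, P'.op y = 0 → P.op (k y) = 0 ∧
    (y ∈ A' ⊔ LinearMap.range P'.op → k y ∈ A ⊔ LinearMap.range P.op) ∧
    f (k y) - X'.pr 2 y ∈ A' ⊔ LinearMap.range P'.op

section Ind

variable {X : HL d V} {X' : HL d V'} {P : X.Nef} {P' : X'.Nef} {g : Module.End ℚ V}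
  {g' : Module.End ℚ V'}

omit [FiniteDimensional ℚ V] [FiniteDimensional ℚ V'] in
/-- Elements of the kernel in `A + im N` are projected to the image of `A`. -/
theorem prj_of_mem (hg : IsProj P 0 g) {A : Submodule ℚ V} (hA : ∀ a ∈ A, P.op a = 0) {x : V}
    (hx : P.op x = 0) (hxA : x ∈ A ⊔ LinearMap.range P.op) :
    prj g x ∈ A.map (prj g) := by
  obtain ⟨a, ha, z, ⟨w, rfl⟩, rfl⟩ := Submodule.mem_sup.1 hxA
  rw [map_add, hA a ha, zero_add] at hx
  have h1 : g (P.op w) = 0 := by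
    refine (hg.low _ (by rw [zero_add, pow_one]; exact hx)).2 ⟨0, w, ?_, ?_⟩
    · rw [smul_zero]
    · rw [zero_add]
      rfl
  have h2 : prj g (P.op w) = 0 := Subtype.ext h1
  rw [map_add, h2, add_zero]
  exact Submodule.mem_map_of_mem ha

omit [FiniteDimensional ℚ V] [FiniteDimensional ℚ V'] in
theorem g_sub_mem (hg : IsProj P 0 g) {x : V} (hx : P.op x = 0) :
    x - g x ∈ LinearMap.range P.op := by
  obtain ⟨a, b, ha, hab⟩ := hg.low_sub (x := x) (by rw [zero_add, pow_one]; exact hx)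
  rw [pow_zero, one_smul] at ha
  rw [ha, zero_add] at hab
  rw [hab]
  exact ⟨b, rfl⟩

omit [FiniteDimensional ℚ V] [FiniteDimensional ℚ V'] in
theorem op_g (hg : IsProj P 0 g) (x : V) : P.op (g x) = 0 := by
  have h1 := hg.kill_apply x
  rwa [zero_add, pow_one] at h1

omit [FiniteDimensional ℚ V] [FiniteDimensional ℚ V'] in
/-- The induced maps preserve the images of `A` and `A'`. -/
theorem indMap_mem_map (hg : IsProj P 0 g) (hg' : IsProj P' 0 g') {A : Submodule ℚ V}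
    {A' : Submodule ℚ V'} (hA : ∀ a ∈ A, P.op a = 0) (hA' : ∀ a ∈ A', P'.op a = 0)
    {f : V →ₗ[ℚ] V'} (hf : ∀ x, P.op x = 0 → P'.op (f x) = 0 ∧
      (x ∈ A ⊔ LinearMap.range P.op → f x ∈ A' ⊔ LinearMap.range P'.op))
    (b : LinearMap.range g) (hb : b ∈ A.map (prj g)) : indMap g g' f b ∈ A'.map (prj g') := by
  obtain ⟨a, ha, rfl⟩ := Submodule.mem_map.1 hb
  have h1 : g a ∈ A ⊔ LinearMap.range P.op := by
    have e : g a = a - (a - g a) := by abel
    rw [e]
    exact Submodule.sub_mem _ (Submodule.mem_sup_left ha)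
      (Submodule.mem_sup_right (g_sub_mem hg (hA a ha)))
  obtain ⟨h2, h3⟩ := hf (g a) (op_g hg a)
  exact prj_of_mem hg' hA' h2 (h3 h1)

omit [FiniteDimensional ℚ V] [FiniteDimensional ℚ V'] in
/-- The induced maps are inverse modulo the image of `A`. -/
theorem indMap_comp (hg : IsProj P 0 g) (hg' : IsProj P' 0 g') {A : Submodule ℚ V}
    {A' : Submodule ℚ V'} (hA : ∀ a ∈ A, P.op a = 0)
    {f : V →ₗ[ℚ] V'} {k : V' →ₗ[ℚ] V} (h : TwoMaps P P' A A' f k) (u : LinearMap.range g) :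
    indMap g' g k (indMap g g' f u) - ind g (X.pr 2) u ∈ A.map (prj g) := by
  obtain ⟨h1, h2⟩ := h
  have hu : P.op (inc g u) = 0 := by
    have h3 := hg.kill_inc u
    rwa [zero_add, pow_one] at h3
  obtain ⟨a1, -, a3⟩ := h1 (inc g u) hu
  have b1 : P'.op (f (inc g u) - g' (f (inc g u))) = 0 := by
    rw [map_sub, a1, op_g hg', sub_zero]
  have b2 : k (f (inc g u) - g' (f (inc g u))) ∈ A ⊔ LinearMap.range P.op :=
    (h2 _ b1).2.1 (Submodule.mem_sup_right (g_sub_mem hg' a1))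
  have b3 : P.op (k (g' (f (inc g u))) - X.pr 2 (inc g u)) = 0 := by
    have h3 := P.op_pow_pr 1 2 (inc g u)
    rw [pow_one, hu, map_zero] at h3
    rw [map_sub, (h2 _ (op_g hg' _)).1, h3, sub_zero]
  have b4 : k (g' (f (inc g u))) - X.pr 2 (inc g u) ∈ A ⊔ LinearMap.range P.op := by
    have e : k (g' (f (inc g u))) - X.pr 2 (inc g u) =
        (k (f (inc g u)) - X.pr 2 (inc g u)) - k (f (inc g u) - g' (f (inc g u))) := by
      rw [map_sub]
      abel
    rw [e]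
    exact Submodule.sub_mem _ a3 b2
  have b5 := prj_of_mem hg hA b3 b4
  have e : indMap g' g k (indMap g g' f u) - ind g (X.pr 2) u =
      prj g (k (g' (f (inc g u))) - X.pr 2 (inc g u)) := by
    rw [map_sub]
    rfl
  rw [e]
  exact b5

end Ind

section Two

variable {X : HL d V} {X' : HL d V'} {P : X.Nef} {P' : X'.Nef} {g : Module.End ℚ V}
  {g' : Module.End ℚ V'} {S : Subalgebra ℚ (Module.End ℚ (V × V'))}

omit [FiniteDimensional ℚ V'] in
/-- The pairing of the primitive part `P_0` with the image of a class killed by `N`. -/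
theorem pair_prj (hg : IsProj P 0 g) (hm : 0 ≤ d) {a : V} (ha : P.op a = 0)
    (u : LinearMap.range g) : (primHL hg hm).pair (prj g a) u = X.pair a (inc g u) := by
  change X.pair (inc g (prj g a)) ((P.op ^ 0) (inc g u)) = _
  rw [pow_zero, Module.End.one_apply, inc_prj]
  have h1 := hg.pair_left (x := a) (y := inc g u) (by rw [zero_add, pow_one]; exact ha)
    (hg.kill_inc u)
  rwa [pow_zero, Module.End.one_apply] at h1

/-- The exterior products on the primitive part `P_0`. -/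
theorem prods_corner (h : Motivic X X' S) (hm : 0 ≤ d) (hg : IsProj P 0 g)
    (hg' : IsProj P' 0 g') (hgS : b11 V' g ∈ S) (hgS' : b22 V g' ∈ S) {A : Submodule ℚ V}
    {A' : Submodule ℚ V'} (hA : ∀ a ∈ A, P.op a = 0) (hA' : ∀ a ∈ A', P'.op a = 0)
    (hp : Motivic.Prods X X' S A A') :
    Motivic.Prods (primHL hg hm) (primHL hg' hm) (cornerAlg S hg hg' hgS hgS')
      (A.map (prj g)) (A'.map (prj g')) := by
  constructor
  · rintro _ ⟨a, ha, rfl⟩ _ ⟨b, hb, rfl⟩
    rw [mem_corner₁]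
    have e : inc g ∘ₗ ((primHL hg hm).pair (prj g a)).smulRight (prj g b) ∘ₗ prj g =
        g ∘ₗ (X.pair a).smulRight b ∘ₗ g := by
      refine LinearMap.ext (fun x => ?_)
      simp only [LinearMap.comp_apply, LinearMap.smulRight_apply, map_smul, pair_prj hg hm (hA a ha),
        inc_prj]
    rw [e]
    exact Motivic.mul₁ hgS (Motivic.mul₁ (hp.p₁₁ a ha b hb) hgS)
  · rintro _ ⟨a, ha, rfl⟩ _ ⟨b, hb, rfl⟩
    rw [mem_corner₂₁]
    have e : inc g' ∘ₗ ((primHL hg hm).pair (prj g a)).smulRight (prj g' b) ∘ₗ prj g =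
        g' ∘ₗ (X.pair a).smulRight b ∘ₗ g := by
      refine LinearMap.ext (fun x => ?_)
      simp only [LinearMap.comp_apply, LinearMap.smulRight_apply, map_smul, pair_prj hg hm (hA a ha),
        inc_prj]
    rw [e, ← b22_mul_b21, ← b21_mul_b11]
    exact Subalgebra.mul_mem _ hgS' (Subalgebra.mul_mem _ (hp.p₂₁ a ha b hb) hgS)
  · rintro _ ⟨a, ha, rfl⟩ _ ⟨b, hb, rfl⟩
    rw [mem_corner₂]
    have e : inc g' ∘ₗ ((primHL hg' hm).pair (prj g' a)).smulRight (prj g' b) ∘ₗ prj g' =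
        g' ∘ₗ (X'.pair a).smulRight b ∘ₗ g' := by
      refine LinearMap.ext (fun x => ?_)
      simp only [LinearMap.comp_apply, LinearMap.smulRight_apply, map_smul,
        pair_prj hg' hm (hA' a ha), inc_prj]
    rw [e]
    exact Motivic.mul₂ hgS' (Motivic.mul₂ (hp.p₂₂ a ha b hb) hgS')
  · rintro _ ⟨a, ha, rfl⟩ _ ⟨b, hb, rfl⟩
    rw [mem_corner₁₂]
    have e : inc g ∘ₗ ((primHL hg' hm).pair (prj g' a)).smulRight (prj g b) ∘ₗ prj g' =
        g ∘ₗ (X'.pair a).smulRight b ∘ₗ g' := by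
      refine LinearMap.ext (fun x => ?_)
      simp only [LinearMap.comp_apply, LinearMap.smulRight_apply, map_smul,
        pair_prj hg' hm (hA' a ha), inc_prj]
    rw [e, ← b11_mul_b12, ← b12_mul_b22]
    exact Subalgebra.mul_mem _ hgS (Subalgebra.mul_mem _ (hp.p₁₂ a ha b hb) hgS')

/-- The degree two of `P_0`. -/
theorem mvn_two (h : Motivic X X' S) (hm : 0 ≤ d) (hg : IsProj P 0 g)
    (hg' : IsProj P' 0 g') (hgS : b11 V' g ∈ S) (hgS' : b22 V g' ∈ S) {A : Submodule ℚ V}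
    {A' : Submodule ℚ V'} (hA : ∀ a ∈ A, X.pr 2 a = a ∧ P.op a = 0)
    (hA' : ∀ a ∈ A', X'.pr 2 a = a ∧ P'.op a = 0)
    (hp : Motivic.Prods X X' S A A') {f : V →ₗ[ℚ] V'} {k : V' →ₗ[ℚ] V} (hf : b21 f ∈ S)
    (hk : b12 k ∈ S) (hfk : TwoMaps P P' A A' f k)
    (hrank : (primHL hg hm).betti 2 = (primHL hg' hm).betti 2) :
    MvN ((h.corner hm hg hg' hgS hgS').Q₁.π 2) ((h.corner hm hg hg' hgS hgS').Q₂.π 2) := by
  refine Motivic.mvn_of_tate (f := indMap g g' f) (k := indMap g' g k)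
    (h.corner hm hg hg' hgS hgS') 2
    (prods_corner h hm hg hg' hgS hgS' (fun a ha => (hA a ha).2) (fun a ha => (hA' a ha).2) hp)
    ?_ ?_ (mem_corner₂₁.2 (indMap_mem₂₁ hgS hgS' hf)) (mem_corner₁₂.2 (indMap_mem₁₂ hgS hgS' hk))
    ?_ ?_ ?_ ?_ hrank
  · rintro _ ⟨a, ha, rfl⟩
    apply Subtype.ext
    have h1 := hg.inc_pr 2 (prj g a)
    rw [inc_prj, ← hg.pr_g, (hA a ha).1] at h1
    exact h1
  · rintro _ ⟨a, ha, rfl⟩
    apply Subtype.ext
    have h1 := hg'.inc_pr 2 (prj g' a)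
    rw [inc_prj, ← hg'.pr_g, (hA' a ha).1] at h1
    exact h1
  · exact indMap_mem_map hg hg' (fun a ha => (hA a ha).2) (fun a ha => (hA' a ha).2)
      (fun x hx => ⟨(hfk.1 x hx).1, (hfk.1 x hx).2.1⟩)
  · exact indMap_mem_map hg' hg (fun a ha => (hA' a ha).2) (fun a ha => (hA a ha).2)
      (fun x hx => ⟨(hfk.2 x hx).1, (hfk.2 x hx).2.1⟩)
  · exact indMap_comp hg hg' (fun a ha => (hA a ha).2) hfk
  · exact indMap_comp hg' hg (fun a ha => (hA' a ha).2) ⟨hfk.2, hfk.1⟩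

end Two

end Pool.Agent.Lib.OrlovRel
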