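import Pool.Agent.Lib.OrlovRel.Defs

/-!
# Hodge numbers, the formula of Libgober and Wood, and algebraic maps modulo divisor classes
-/

set_option autoImplicit false

open CategoryTheory
open scoped TensorProduct

namespace Pool.Agent.Lib.OrlovNef

namespace HL

variable {d : ℕ} {V : Type*} [AddCommGroup V] [Module ℚ V]

/-- The Hodge number `h^{p,q}(X)`. -/
noncomputable def hodge (X : HL d V) (p q : ℕ) : ℕ :=
  Module.finrank ℂ (LinearMap.range (X.hp p q))

/-- The Betti number `b_j(X)`. -/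
noncomputable def betti (X : HL d V) (j : ℕ) : ℕ :=
  Module.finrank ℚ (LinearMap.range (X.pr j))

/-- The formula of Libgober and Wood for a smooth projective variety `X` of dimension `d`: `one` is
the unit of `H^0`, so that `X.pair one y = ∫ y`, and `chern` is `c_{d-1}(X)`. -/
structure LibgoberWood (X : HL d V) where
  one : V
  chern : V
  one_mem : X.pr 0 one = one
  chern_mem : X.pr (2 * d - 2) chern = chern
  /-- `∑ (-1)^{p+q} (p - d/2)² h^{p,q} = (d/12) c_d + (1/6) c₁ c_{d-1}`, where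
  `c_d = ∑ (-1)^{p+q} h^{p,q}` -/
  formula : 3 * ∑ p ∈ Finset.range (d + 1), ∑ q ∈ Finset.range (d + 1),
      (-1 : ℚ) ^ (p + q) * (2 * p - d) ^ 2 * X.hodge p q =
    d * ∑ p ∈ Finset.range (d + 1), ∑ q ∈ Finset.range (d + 1),
      (-1 : ℚ) ^ (p + q) * X.hodge p q + 2 * X.pair one (X.can chern)

/-- The Chern number `c₁ c_{d-1}`. -/
noncomputable def LibgoberWood.c1c {X : HL d V} (R : X.LibgoberWood) : ℚ :=
  X.pair R.one (X.can R.chern)

end HL

end Pool.Agent.Lib.OrlovNef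

namespace Pool.Agent.Lib.OrlovRel

open Pool.Agent.Lib.OrlovNef Pool.Agent.Lib.MP_5c0b30_ag

universe v u w

variable {C : Type u} [Category.{v} C] [Preadditive C] [HasShift C ℤ]
  {W : C → Type w} [∀ X, AddCommGroup (W X)] [∀ X, Module ℚ (W X)] {d : ℕ} {M M' : C}

/-- The exterior products `x ↦ (∫ a ∪ x) b` of the classes of `A` and `A'` are linear combinations
of maps given by morphisms. -/
structure AlgProducts (T : TotalRealization C W) (X : HL d (W M)) (X' : HL d (W M'))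
    (A : Submodule ℚ (W M)) (A' : Submodule ℚ (W M')) : Prop where
  p₁₁ : ∀ a ∈ A, ∀ b ∈ A, (X.pair a).smulRight b ∈ T.alg M M
  p₁₂ : ∀ a ∈ A, ∀ b ∈ A', (X.pair a).smulRight b ∈ T.alg M M'
  p₂₁ : ∀ a ∈ A', ∀ b ∈ A, (X'.pair a).smulRight b ∈ T.alg M' M
  p₂₂ : ∀ a ∈ A', ∀ b ∈ A', (X'.pair a).smulRight b ∈ T.alg M' M'

/-- Linear combinations of maps given by morphisms `M ⟶ M'⟦n⟧` and `M' ⟶ M⟦n⟧` induce mutually
inverse isomorphisms between the parts of degree two of `ker N` and `ker N'`, modulo `A + im N` and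
`A' + im N'`. -/
def AlgTwo (T : TotalRealization C W) {X : HL d (W M)} {X' : HL d (W M')} (P : X.Nef)
    (P' : X'.Nef) (A : Submodule ℚ (W M)) (A' : Submodule ℚ (W M')) : Prop :=
  ∃ f ∈ T.alg M M', ∃ k ∈ T.alg M' M,
    (∀ x, P.op x = 0 → P'.op (f x) = 0 ∧
      (x ∈ A ⊔ LinearMap.range P.op → f x ∈ A' ⊔ LinearMap.range P'.op) ∧
      k (f x) - X.pr 2 x ∈ A ⊔ LinearMap.range P.op) ∧
    ∀ y, P'.op y = 0 → P.op (k y) = 0 ∧
      (y ∈ A' ⊔ LinearMap.range P'.op → k y ∈ A ⊔ LinearMap.range P.op) ∧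
      f (k y) - X'.pr 2 y ∈ A' ⊔ LinearMap.range P'.op

end Pool.Agent.Lib.OrlovRel
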