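import Pool.Agent.Lib.OrlovTate.Corner
import Pool.Agent.Lib.OrlovRel.Final

/-!
# Isomorphisms of motives with one exceptional primitive part
-/

set_option autoImplicit false

open CategoryTheory
open scoped TensorProduct ComplexOrder

namespace Pool.Agent.Lib.OrlovRel

open Pool.Agent.Lib.OrlovSig Pool.Agent.Lib.OrlovNef Pool.Agent.Lib.OrlovChow
  Pool.Agent.Lib.MP_5c0b30_ag Pool.Agent.Lib.OrlovSix HL

section Ring

variable {d : ℕ} {V V' : Type*} [AddCommGroup V] [Module ℚ V] [AddCommGroup V'] [Module ℚ V']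
  [FiniteDimensional ℚ V] [FiniteDimensional ℚ V'] {X : HL d V} {X' : HL d V'}
  {S : Subalgebra ℚ (Module.End ℚ (V × V'))}

/-- The block theorem, as a structure. -/
theorem Motivic.coreEq (h : Motivic X X' S) (u : V ≃ₗ[ℚ] V') (hu : b21 u.toLinearMap ∈ S)
    (hu' : b12 u.symm.toLinearMap ∈ S) (hm : ∀ x y, X'.mukai (u x) (u y) = X.mukai x y) :
    CoreEq h.Q₁ h.Q₂ := by
  obtain ⟨c1, c2, c3⟩ := h.core u hu hu' hm
  exact ⟨c1, c2, c3⟩

/-- All degrees of a datum of dimension `d`, if the degree two is known as soon as its Betti number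
is, and the Betti numbers satisfy the moment relation. -/
theorem Motivic.all_moment (h : Motivic X X' S) (u : V ≃ₗ[ℚ] V') (hu : b21 u.toLinearMap ∈ S)
    (hu' : b12 u.symm.toLinearMap ∈ S) (hm : ∀ x y, X'.mukai (u x) (u y) = X.mukai x y)
    (hmom : ∑ j ∈ Finset.range (2 * d + 1), (-1 : ℚ) ^ j * ((j : ℚ) - d) ^ 2 * X.betti j =
      ∑ j ∈ Finset.range (2 * d + 1), (-1 : ℚ) ^ j * ((j : ℚ) - d) ^ 2 * X'.betti j)
    (h2 : X.betti 2 = X'.betti 2 → MvN (h.Q₁.π 2) (h.Q₂.π 2)) (K : Set ℕ) (h0 : 0 ∈ K)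
    (hK : ∀ i ∈ K, MvN (h.Q₁.π i) (h.Q₂.π i))
    (hh : ∀ e < 2, (∀ i ≤ d, ∀ j ≤ d, i % 2 = e → j % 2 = e → block d i = block d j →
        i ∉ K → j ∉ K → i ≠ 2 → j ≠ 2 → i = j) ∨
      (e ∈ K ∧ ∀ j, 1 < j → j < d → j % 2 = e → j ≠ 2 → ∀ x : V, X.pr j x = x →
        (X.lef ^ (d - j + 1)) x = 0 → x = 0)) :
    ∀ j ≤ 2 * d, MvN (h.Q₁.π j) (h.Q₂.π j) := by
  refine all_of_moment (tauS S) tauS_comm tauS_nonneg h.regS (h.coreEq u hu hu' hm) K h0 hK ?_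
    (fun _ hb => h2 ?_) ?_ ?_
  · simp only [h.tau_Q₁, h.tau_Q₂]
    exact hmom
  · rw [h.tau_Q₁, h.tau_Q₂] at hb
    exact_mod_cast hb
  · rcases hh 0 (by norm_num) with h1 | ⟨-, h1⟩
    · exact Or.inl h1
    · exact Or.inr (fun j hj1 hj2 hje => h.prim_Q₁ (h1 j (by omega) hj2 hje (by omega)))
  · rcases hh 1 (by norm_num) with h1 | ⟨h3, h1⟩
    · exact Or.inl (fun i hi j hj hie hje hb hiK hjK =>
        h1 i hi j hj hie hje hb hiK hjK (by omega) (by omega))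
    · exact Or.inr ⟨h3, fun j hj1 hj2 hje => h.prim_Q₁ (h1 j hj1 hj2 hje (by omega))⟩

/-- All degrees of all primitive parts. -/
theorem Motivic.prim_all_moment (h : Motivic X X' S) {P : X.Nef} {P' : X'.Nef}
    {g : ℕ → Module.End ℚ V} {g' : ℕ → Module.End ℚ V'} (hf : FamS S P P' g g')
    (u : V ≃ₗ[ℚ] V') (hu : b21 u.toLinearMap ∈ S) (hu' : b12 u.symm.toLinearMap ∈ S)
    (hmk : ∀ x y, X'.mukai (u x) (u y) = X.mukai x y) (hN : ∀ x, u (P.op x) = P'.op (u x))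
    (R : X.LibgoberWood) (R' : X'.LibgoberWood) (hR : R.c1c = R'.c1c) (A : Submodule ℚ V)
    (A' : Submodule ℚ V') (hA : ∀ a ∈ A, X.pr 2 a = a ∧ P.op a = 0)
    (hA' : ∀ a ∈ A', X'.pr 2 a = a ∧ P'.op a = 0) (hp : Motivic.Prods X X' S A A')
    {f : V →ₗ[ℚ] V'} {k : V' →ₗ[ℚ] V} (hfS : b21 f ∈ S) (hkS : b12 k ∈ S)
    (hfk : TwoMaps P P' A A' f k) (K : Set (ℕ × ℕ)) (h0 : (0, 0) ∈ K)
    (hK : ∀ t ∈ K, SPrim S P P' t.1 {t.2})
    (hh : ∀ m ≤ d, ∀ e < 2, (∀ i j, m + i ≤ d → m + j ≤ d → i % 2 = e → j % 2 = e →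
        block (d - m) i = block (d - m) j → (m, i) ∉ K → (m, j) ∉ K → (m, i) ≠ (0, 2) →
        (m, j) ≠ (0, 2) → i = j) ∨
      ((m, e) ∈ K ∧ ∀ j, 1 < j → m + j < d → j % 2 = e → (m, j) ≠ (0, 2) → NoPrim P m j))
    (m : ℕ) (hm : m ≤ d) :
    ∀ j ≤ 2 * (d - m), MvN ((h.corner hm (hf.proj m) (hf.proj' m) (hf.mem m)
      (hf.mem' m)).Q₁.π j) ((h.corner hm (hf.proj m) (hf.proj' m) (hf.mem m)
      (hf.mem' m)).Q₂.π j) := by
  -- the parts with `1 ≤ m`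
  have pos : ∀ (m : ℕ) (hm : m ≤ d), 1 ≤ m → ∀ j ≤ 2 * (d - m), MvN ((h.corner hm (hf.proj m)
      (hf.proj' m) (hf.mem m) (hf.mem' m)).Q₁.π j) ((h.corner hm (hf.proj m) (hf.proj' m)
      (hf.mem m) (hf.mem' m)).Q₂.π j) := by
    intro m hm h1
    refine h.prim_all hf u hu hu' hmk hN m hm {i | (m, i) ∈ K} (fun i hi => hK (m, i) hi)
      (fun e he => ?_)
    have hne : ∀ i, (m, i) ≠ (0, 2) := by
      intro i hi
      rw [Prod.mk.injEq] at hi
      omega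
    rcases hh m hm e he with h2 | ⟨h2, h3⟩
    · exact Or.inl (fun i j hi hj hie hje hb hiK hjK =>
        h2 i j hi hj hie hje hb hiK hjK (hne i) (hne j))
    · exact Or.inr ⟨h2, fun j hj1 hj2 hje => h3 j hj1 hj2 hje (hne j)⟩
  rcases Nat.eq_zero_or_pos m with hm0 | hm0
  · subst hm0
    have hbetti : ∀ m, 1 ≤ m → m ≤ d → ∀ j, X.primBetti g m j = X'.primBetti g' m j := by
      intro m h1 hm j
      rcases Nat.lt_or_ge (2 * (d - m)) j with hj | hj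
      · have e1 := Motivic.betti_top (primHL (hf.proj m) hm) hj
        have e2 := Motivic.betti_top (primHL (hf.proj' m) hm) hj
        exact e1.trans e2.symm
      · exact Motivic.betti_of_mvn _ (pos m hm h1 j hj)
    have hmom := moment_prim (hf.proj : Fam P g) (hf.proj' : Fam P' g') hbetti R R' u
      (h.isHodge₂₁ hu) hR
    obtain ⟨i1, i2⟩ := indEquiv_mem (hf.proj 0) (hf.proj' 0) (hf.mem 0) (hf.mem' 0) u hN hu hu'
    refine (h.corner hm (hf.proj 0) (hf.proj' 0) (hf.mem 0) (hf.mem' 0)).all_moment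
      (indEquiv (hf.proj 0) (hf.proj' 0) u hN) i1 i2
      (indEquiv_mukai (hf.proj 0) (hf.proj' 0) hm u hN hmk) ?_ ?_ {i | (0, i) ∈ K} h0
      (fun i hi => (hK (0, i) hi).mvn h hm (hf.proj 0) (hf.proj' 0) (hf.mem 0) (hf.mem' 0))
      (fun e he => ?_)
    · exact hmom
    · intro hb
      exact mvn_two h hm (hf.proj 0) (hf.proj' 0) (hf.mem 0) (hf.mem' 0) hA hA' hp hfS hkS hfk hb
    · rcases hh 0 hm e he with h2 | ⟨h2, h3⟩
      · refine Or.inl (fun i hi j hj hie hje hb hiK hjK hi2 hj2 => ?_)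
        refine h2 i j (by omega) (by omega) hie hje hb hiK hjK ?_ ?_
        · intro h4
          rw [Prod.mk.injEq] at h4
          exact hi2 h4.2
        · intro h4
          rw [Prod.mk.injEq] at h4
          exact hj2 h4.2
      · refine Or.inr ⟨h2, fun j hj1 hj2 hje hj3 x hx hx0 => ?_⟩
        refine (h3 j hj1 (by omega) hje ?_).induced (hf.proj 0) hm x hx hx0
        intro h4
        rw [Prod.mk.injEq] at h4
        exact hj3 h4.2
  · exact pos m hm hm0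

end Ring

universe v u w

variable {C : Type u} [Category.{v} C] [Preadditive C] [HasShift C ℤ]
  {W : C → Type w} [∀ X, AddCommGroup (W X)] [∀ X, Module ℚ (W X)]
  {T : TotalRealization C W} {d : ℕ} {M M' : C} {X : HL d (W M)} {X' : HL d (W M')}
  [FiniteDimensional ℚ (W M)] [FiniteDimensional ℚ (W M')]

/-- The theorem for motives. -/
theorem iso_of_moment [Linear ℚ C] {P : X.Nef} {P' : X'.Nef} (s : Standard T X)
    (s' : Standard T X') (h11 : Corr T X X)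
    (h12 : Corr T X X') (h21 : Corr T X' X) (h22 : Corr T X' X') (hM : T.TrivialRadical M)
    (hM' : T.TrivialRadical M') (hP : P.op ∈ T.alg M M) (hP' : P'.op ∈ T.alg M' M')
    (u : W M ≃ₗ[ℚ] W M') (hu : u.toLinearMap ∈ T.alg M M')
    (hu' : u.symm.toLinearMap ∈ T.alg M' M) (hmk : ∀ x y, X'.mukai (u x) (u y) = X.mukai x y)
    (hN : ∀ x, u (P.op x) = P'.op (u x)) (R : X.LibgoberWood) (R' : X'.LibgoberWood)
    (hR : R.c1c = R'.c1c) (A : Submodule ℚ (W M)) (A' : Submodule ℚ (W M'))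
    (hA : ∀ a ∈ A, X.pr 2 a = a ∧ P.op a = 0) (hA' : ∀ a ∈ A', X'.pr 2 a = a ∧ P'.op a = 0)
    (hp : AlgProducts T X X' A A') (h2 : AlgTwo T P P' A A') (K : Set (ℕ × ℕ))
    (h0 : (0, 0) ∈ K) (hK : ∀ t ∈ K, AlgPrim T P P' t.1 {t.2})
    (hh : ∀ m ≤ d, ∀ e < 2, (∀ i j, m + i ≤ d → m + j ≤ d → i % 2 = e → j % 2 = e →
        block (d - m) i = block (d - m) j → (m, i) ∉ K → (m, j) ∉ K → (m, i) ≠ (0, 2) →
        (m, j) ≠ (0, 2) → i = j) ∨
      ((m, e) ∈ K ∧ ∀ j, 1 < j → m + j < d → j % 2 = e → (m, j) ≠ (0, 2) → NoPrim P m j)) :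
    (∃ i : M ≅ M', ∀ x, T.act (ShiftedHom.mk₀ (0 : ℤ) rfl i.hom) (P.op x) =
      P'.op (T.act (ShiftedHom.mk₀ (0 : ℤ) rfl i.hom) x)) ∧
    ∀ p q, X.hodge p q = X'.hodge p q := by
  have h := motivic_alg s s' h11 h12 h21 h22
  have hPS : b11 (W M') P.op ∈ algRing T M M' := mem_algRing.2 (blk11 hP)
  have hPS' : b22 (W M) P'.op ∈ algRing T M M' := mem_algRing.2 (blk22 hP')
  have hpr : Motivic.Prods X X' (algRing T M M') A A' :=
    ⟨fun a ha b hb => mem_algRing.2 (blk11 (hp.p₁₁ a ha b hb)),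
      fun a ha b hb => b21_mem.2 (hp.p₁₂ a ha b hb),
      fun a ha b hb => mem_algRing.2 (blk22 (hp.p₂₂ a ha b hb)),
      fun a ha b hb => b12_mem.2 (hp.p₂₁ a ha b hb)⟩
  obtain ⟨f, hf2, k, hk2, hfk⟩ := h2
  obtain ⟨g, g', hf⟩ := h.exists_fam P P' hPS hPS'
  obtain ⟨F, hF, hF', hFp, hFN⟩ := h.exists_iso hPS hPS' hf
    (h.prim_all_moment hf u (b21_mem.2 hu) (b12_mem.2 hu') hmk hN R R' hR A A' hA hA' hpr
      (b21_mem.2 hf2) (b12_mem.2 hk2) hfk K h0 (fun t ht => sprim_iff.2 (hK t ht)) hh)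
  obtain ⟨i, hi⟩ : ∃ i : M ≅ M', T.act (ShiftedHom.mk₀ (0 : ℤ) rfl i.hom) = F.toLinearMap := by
    refine iso_of_alg' T hM hM' (b21_mem.1 hF) (b12_mem.1 hF') ?_ ?_ ?_
    · exact LinearMap.ext (fun x => F.symm_apply_apply x)
    · exact LinearMap.ext (fun x => F.apply_symm_apply x)
    · apply X.ext_pr
      intro i x
      rw [LinearMap.comp_apply, LinearMap.comp_apply, s.deg_pr, map_smul]
      change T.deg M' (F (X.pr i x)) = ((i : ℚ) / 2) • F (X.pr i x)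
      rw [hFp, s'.deg_pr]
  exact ⟨⟨i, fun x => by rw [hi]; exact hFN x⟩,
    X.hodge_of_equiv X' F (h.isHodge₂₁ hF) hFp⟩

end Pool.Agent.Lib.OrlovRel
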