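import Pool.Agent.Lib.OrlovNef.Trans
import Pool.Agent.Lib.OrlovTate.Defs

/-!
# Hodge numbers and the formula of Libgober and Wood
-/

set_option autoImplicit false
set_option linter.unusedSectionVars false

open scoped TensorProduct ComplexOrder

namespace Pool.Agent.Lib.OrlovNef

open Pool.Agent.Lib.OrlovSig

namespace HL

variable {d : ℕ} {V V' : Type*} [AddCommGroup V] [Module ℚ V] [FiniteDimensional ℚ V]
  [AddCommGroup V'] [Module ℚ V'] [FiniteDimensional ℚ V']

theorem hodge_eq_trace (X : HL d V) (p q : ℕ) :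
    (X.hodge p q : ℂ) = LinearMap.trace ℂ (ℂ ⊗[ℚ] V) (X.hp p q) := by
  have h : IsIdempotentElem (X.hp p q) := by
    unfold IsIdempotentElem
    apply LinearMap.ext
    intro x
    exact X.hp_self p q x
  exact ((LinearMap.IsIdempotentElem.isProj_range _ h).trace).symm

theorem betti_eq_trace (X : HL d V) (j : ℕ) :
    (X.betti j : ℚ) = LinearMap.trace ℚ V (X.pr j) :=
  ((LinearMap.IsIdempotentElem.isProj_range _ (X.pr_self j)).trace).symm

theorem repr_conj {ι : Type*} (b : Module.Basis ι ℚ V) (z : ℂ ⊗[ℚ] V) (i : ι) :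
    (Algebra.TensorProduct.basis ℂ b).repr (conj V z) i =
      (starRingEnd ℂ) ((Algebra.TensorProduct.basis ℂ b).repr z i) := by
  induction z using TensorProduct.induction_on with
  | zero => simp
  | tmul a v =>
    unfold conj
    rw [LinearMap.rTensor_tmul, Algebra.TensorProduct.basis_repr_tmul,
      Algebra.TensorProduct.basis_repr_tmul]
    simp
  | add x y hx hy => simp only [map_add, Finsupp.add_apply, hx, hy]

theorem trace_conj (f g : (ℂ ⊗[ℚ] V) →ₗ[ℂ] (ℂ ⊗[ℚ] V))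
    (h : ∀ x, f (conj V x) = conj V (g x)) :
    LinearMap.trace ℂ (ℂ ⊗[ℚ] V) f = (starRingEnd ℂ) (LinearMap.trace ℂ (ℂ ⊗[ℚ] V) g) := by
  classical
  set b := Module.Free.chooseBasis ℚ V with hb
  rw [LinearMap.trace_eq_matrix_trace ℂ (Algebra.TensorProduct.basis ℂ b),
    LinearMap.trace_eq_matrix_trace ℂ (Algebra.TensorProduct.basis ℂ b), Matrix.trace,
    Matrix.trace, map_sum]
  refine Finset.sum_congr rfl (fun i _ => ?_)
  rw [Matrix.diag_apply, Matrix.diag_apply, LinearMap.toMatrix_apply, LinearMap.toMatrix_apply,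
    ← repr_conj, ← h, Algebra.TensorProduct.basis_apply, conj_one_tmul]

theorem hodge_symm (X : HL d V) (p q : ℕ) : X.hodge p q = X.hodge q p := by
  have h := trace_conj (X.hp p q) (X.hp q p) (X.hp_conj p q)
  rw [← X.hodge_eq_trace, ← X.hodge_eq_trace, Complex.conj_natCast] at h
  exact_mod_cast h

theorem pairC_nondeg' (X : HL d V) (z : ℂ ⊗[ℚ] V)
    (h : ∀ x, X.pair.baseChange ℂ x z = 0) : z = 0 :=
  X.pairC_nondeg z (fun x => h _)

/-- adjoints for the Poincaré pairing have the same trace -/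
theorem trace_adj (X : HL d V) (f g : (ℂ ⊗[ℚ] V) →ₗ[ℂ] (ℂ ⊗[ℚ] V))
    (h : ∀ x y, X.pair.baseChange ℂ (f x) y = X.pair.baseChange ℂ x (g y)) :
    LinearMap.trace ℂ (ℂ ⊗[ℚ] V) f = LinearMap.trace ℂ (ℂ ⊗[ℚ] V) g := by
  set B : (ℂ ⊗[ℚ] V) →ₗ[ℂ] Module.Dual ℂ (ℂ ⊗[ℚ] V) := LinearMap.flip (X.pair.baseChange ℂ)
    with hB
  have hinj : Function.Injective B := by
    rw [injective_iff_map_eq_zero]
    intro z hz
    apply X.pairC_nondeg'
    intro x
    have := LinearMap.congr_fun hz x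
    simpa [hB] using this
  have hbij : Function.Bijective B := ⟨hinj,
    (LinearMap.injective_iff_surjective_of_finrank_eq_finrank
      (Subspace.dual_finrank_eq (K := ℂ) (V := ℂ ⊗[ℚ] V)).symm).1 hinj⟩
  set e := LinearEquiv.ofBijective B hbij with he
  have h1 : f.dualMap = e.conj g := by
    apply LinearMap.ext
    intro y
    apply LinearMap.ext
    intro x
    obtain ⟨z, rfl⟩ := e.surjective y
    rw [LinearEquiv.conj_apply_apply, LinearEquiv.symm_apply_apply, LinearMap.dualMap_apply]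
    change X.pair.baseChange ℂ (f x) z = X.pair.baseChange ℂ x (g z)
    exact h x z
  rw [← LinearMap.trace_conj' g e, ← h1]
  exact (LinearMap.trace_transpose' (R := ℂ) f).symm

theorem pairC_hp_adj (X : HL d V) {p q : ℕ} (hp : p ≤ d) (hq : q ≤ d)
    (x y : ℂ ⊗[ℚ] V) :
    X.pair.baseChange ℂ (X.hp p q x) y = X.pair.baseChange ℂ x (X.hp (d - p) (d - q) y) := by
  have h := X.ext_hp₂ (f := (X.pair.baseChange ℂ).compl₁₂ (X.hp p q) LinearMap.id)
    (g := (X.pair.baseChange ℂ).compl₁₂ LinearMap.id (X.hp (d - p) (d - q))) ?_ x y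
  · simpa only [LinearMap.compl₁₂_apply, LinearMap.id_apply] using h
  · intro a b x a' b' y
    simp only [LinearMap.compl₁₂_apply, LinearMap.id_apply, X.hp_hp]
    by_cases hd : (a + a', b + b') = (d, d)
    · rw [Prod.mk.injEq] at hd
      split_ifs with h1 h2 h2
      · rfl
      · omega
      · omega
      · simp
    · have h0 := X.pair_hp a b a' b' x y hd
      split_ifs with h1 h2 h2
      · rfl
      · rw [h0]; simp
      · rw [h0]; simp
      · simp

/-- Serre duality -/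
theorem hodge_serre (X : HL d V) {p q : ℕ} (hp : p ≤ d) (hq : q ≤ d) :
    X.hodge p q = X.hodge (d - p) (d - q) := by
  have h := X.trace_adj _ _ (X.pairC_hp_adj hp hq)
  rw [← X.hodge_eq_trace, ← X.hodge_eq_trace] at h
  exact_mod_cast h

theorem hp_eq_zero (X : HL d V) {p q : ℕ} (h : d < p ∨ d < q) : X.hp p q = 0 := by
  apply LinearMap.ext
  intro x
  rw [LinearMap.zero_apply]
  apply X.pairC_nondeg'
  intro y
  have h2 : (X.pair.baseChange ℂ).compl₁₂ LinearMap.id (X.hp p q) = 0 := by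
    refine LinearMap.ext fun a => LinearMap.ext fun b => ?_
    have := X.ext_hp₂ (f := (X.pair.baseChange ℂ).compl₁₂ LinearMap.id (X.hp p q)) (g := 0) ?_ a b
    · exact this
    · intro p1 q1 x1 p2 q2 x2
      simp only [LinearMap.compl₁₂_apply, LinearMap.id_apply, X.hp_hp, LinearMap.zero_apply]
      split_ifs with h3
      · obtain ⟨rfl, rfl⟩ := h3
        apply X.pair_hp
        intro h4
        rw [Prod.mk.injEq] at h4
        omega
      · simp
  have h3 := LinearMap.congr_fun₂ h2 y x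
  simpa using h3

theorem hodge_eq_zero (X : HL d V) {p q : ℕ} (h : d < p ∨ d < q) :
    X.hodge p q = 0 := by
  have h1 := X.hodge_eq_trace p q
  rw [X.hp_eq_zero h, map_zero] at h1
  exact_mod_cast h1

theorem trace_conj_equiv (φ : V ≃ₗ[ℚ] V') (f : (ℂ ⊗[ℚ] V) →ₗ[ℂ] (ℂ ⊗[ℚ] V))
    (g : (ℂ ⊗[ℚ] V') →ₗ[ℂ] (ℂ ⊗[ℚ] V'))
    (h : ∀ x, φ.toLinearMap.baseChange ℂ (f x) = g (φ.toLinearMap.baseChange ℂ x)) :
    LinearMap.trace ℂ (ℂ ⊗[ℚ] V) f = LinearMap.trace ℂ (ℂ ⊗[ℚ] V') g := by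
  set e : (ℂ ⊗[ℚ] V) ≃ₗ[ℂ] (ℂ ⊗[ℚ] V') := LinearEquiv.ofLinearMap
    (φ.toLinearMap.baseChange ℂ) (φ.symm.toLinearMap.baseChange ℂ)
    (by rw [← LinearMap.baseChange_comp, LinearEquiv.comp_symm, LinearMap.baseChange_id])
    (by rw [← LinearMap.baseChange_comp, LinearEquiv.symm_comp, LinearMap.baseChange_id]) with he
  have h1 : g = e.conj f := by
    apply LinearMap.ext
    intro y
    obtain ⟨z, rfl⟩ := e.surjective y
    rw [LinearEquiv.conj_apply_apply, LinearEquiv.symm_apply_apply]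
    exact (h z).symm
  rw [h1, LinearMap.trace_conj']

/-- Hodge numbers of isomorphic Hodge structures -/
theorem hodge_of_hodgeIso (X : HL d V) (X' : HL d V') {j : ℕ}
    (h : X.HodgeIso X' j) {p q : ℕ} (hpq : p + q = j) : X.hodge p q = X'.hodge p q := by
  obtain ⟨f, g, hgf, hfg, hh⟩ := h
  have e1 : (X.hp p q) = (g.baseChange ℂ) ∘ₗ (X'.hp p q ∘ₗ f.baseChange ℂ) := by
    apply LinearMap.ext
    intro x
    rw [LinearMap.comp_apply, LinearMap.comp_apply, ← hh p q hpq, ← LinearMap.comp_apply,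
      ← LinearMap.baseChange_comp, hgf, X.prC_hp, if_pos hpq]
  have e2 : (X'.hp p q) = (X'.hp p q ∘ₗ f.baseChange ℂ) ∘ₗ (g.baseChange ℂ) := by
    apply LinearMap.ext
    intro x
    rw [LinearMap.comp_apply, LinearMap.comp_apply, ← LinearMap.comp_apply (f.baseChange ℂ),
      ← LinearMap.baseChange_comp, hfg, X'.hp_prC, if_pos hpq]
  have h1 : LinearMap.trace ℂ _ (X.hp p q) = LinearMap.trace ℂ _ (X'.hp p q) := by
    rw [e1, LinearMap.trace_comp_comm', ← e2]
  rw [← X.hodge_eq_trace, ← X'.hodge_eq_trace] at h1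
  exact_mod_cast h1



theorem trace_col (X : HL d V) (c : ℤ) :
    LinearMap.trace ℂ (ℂ ⊗[ℚ] V) (X.col c) =
      ((∑ i ∈ Finset.range (2 * d + 1) ×ˢ Finset.range (2 * d + 1),
        if (i.1 : ℤ) - i.2 = c then (X.hodge i.1 i.2 : ℚ) else 0 : ℚ) : ℂ) := by
  unfold col
  rw [map_sum, Rat.cast_sum]
  refine Finset.sum_congr rfl (fun i _ => ?_)
  split_ifs with h
  · rw [← X.hodge_eq_trace]
    push_cast
    rfl
  · simp

theorem col_sum_eq (X : HL d V) (X' : HL d V') (u : V ≃ₗ[ℚ] V')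
    (hu : X.IsHodge X' u.toLinearMap) (c : ℤ) :
    (∑ i ∈ Finset.range (2 * d + 1) ×ˢ Finset.range (2 * d + 1),
        if (i.1 : ℤ) - i.2 = c then (X.hodge i.1 i.2 : ℚ) else 0) =
      ∑ i ∈ Finset.range (2 * d + 1) ×ˢ Finset.range (2 * d + 1),
        if (i.1 : ℤ) - i.2 = c then (X'.hodge i.1 i.2 : ℚ) else 0 := by
  have h := trace_conj_equiv u (X.col c) (X'.col c) (hu c)
  rw [trace_col, trace_col] at h
  exact_mod_cast h

/-- a sum over the square of size `2 d + 1` is a sum over the Hodge diamond -/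
theorem sum_big (X : HL d V) (f : ℕ → ℕ → ℚ) :
    ∑ i ∈ Finset.range (2 * d + 1) ×ˢ Finset.range (2 * d + 1), f i.1 i.2 * X.hodge i.1 i.2 =
      ∑ p ∈ Finset.range (d + 1), ∑ q ∈ Finset.range (d + 1), f p q * X.hodge p q := by
  rw [← Finset.sum_product']
  symm
  apply Finset.sum_subset
  · intro i hi
    rw [Finset.mem_product, Finset.mem_range, Finset.mem_range] at hi ⊢
    omega
  · intro i _ hi
    rw [Finset.mem_product, Finset.mem_range, Finset.mem_range] at hi
    rw [X.hodge_eq_zero (by omega)]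
    simp

theorem sum_weight_col (X : HL d V) (w : ℤ → ℚ) :
    ∑ i ∈ Finset.range (2 * d + 1) ×ˢ Finset.range (2 * d + 1),
        w ((i.1 : ℤ) - i.2) * X.hodge i.1 i.2 =
      ∑ c ∈ Finset.Icc (-(2 * d : ℤ)) (2 * d), w c *
        ∑ i ∈ Finset.range (2 * d + 1) ×ˢ Finset.range (2 * d + 1),
          if (i.1 : ℤ) - i.2 = c then (X.hodge i.1 i.2 : ℚ) else 0 := by
  simp only [Finset.mul_sum]
  rw [Finset.sum_comm]
  refine Finset.sum_congr rfl (fun i hi => ?_)
  rw [Finset.mem_product, Finset.mem_range, Finset.mem_range] at hi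
  rw [Finset.sum_eq_single ((i.1 : ℤ) - i.2)]
  · simp
  · intro c _ hc
    rw [if_neg (fun h => hc h.symm), mul_zero]
  · intro hc
    exfalso
    apply hc
    rw [Finset.mem_Icc]
    omega

/-- The sums of the Hodge numbers with a weight depending on `p - q` are invariant. -/
theorem weight_sum (X : HL d V) (X' : HL d V') (u : V ≃ₗ[ℚ] V')
    (hu : X.IsHodge X' u.toLinearMap) (w : ℤ → ℚ) :
    ∑ p ∈ Finset.range (d + 1), ∑ q ∈ Finset.range (d + 1),
        w ((p : ℤ) - q) * X.hodge p q =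
      ∑ p ∈ Finset.range (d + 1), ∑ q ∈ Finset.range (d + 1),
        w ((p : ℤ) - q) * X'.hodge p q := by
  rw [← X.sum_big (fun p q => w ((p : ℤ) - q)), ← X'.sum_big (fun p q => w ((p : ℤ) - q)),
    X.sum_weight_col w, X'.sum_weight_col w]
  refine Finset.sum_congr rfl (fun c _ => ?_)
  rw [X.col_sum_eq X' u hu c]

theorem betti_eq_sum' (X : HL d V) (j : ℕ) :
    (X.betti j : ℚ) = ∑ p ∈ Finset.range (j + 1), (X.hodge p (j - p) : ℚ) := by
  have h : ((X.betti j : ℚ) : ℂ) =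
      ((∑ p ∈ Finset.range (j + 1), (X.hodge p (j - p) : ℚ) : ℚ) : ℂ) := by
    have h1 := LinearMap.trace_baseChange (X.pr j) ℂ
    rw [← X.hp_sum j, map_sum, ← X.betti_eq_trace] at h1
    rw [Rat.cast_sum]
    change algebraMap ℚ ℂ (X.betti j : ℚ) = _
    rw [← h1]
    refine Finset.sum_congr rfl (fun p _ => ?_)
    rw [← X.hodge_eq_trace]
    push_cast
    rfl
  exact_mod_cast h

/-- sums with a weight depending on the degree -/
theorem degree_sum (X : HL d V) (f : ℕ → ℚ) :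
    ∑ p ∈ Finset.range (d + 1), ∑ q ∈ Finset.range (d + 1), f (p + q) * X.hodge p q =
      ∑ j ∈ Finset.range (2 * d + 1), f j * X.betti j := by
  rw [← X.sum_big (fun p q => f (p + q))]
  have h1 : ∀ j ∈ Finset.range (2 * d + 1), f j * (X.betti j : ℚ) =
      ∑ i ∈ Finset.range (2 * d + 1) ×ˢ Finset.range (2 * d + 1),
        if i.1 + i.2 = j then f (i.1 + i.2) * (X.hodge i.1 i.2 : ℚ) else 0 := by
    intro j hj
    rw [Finset.mem_range] at hj
    rw [X.betti_eq_sum', Finset.mul_sum, ← Finset.sum_filter]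
    refine Finset.sum_bij (fun p _ => (p, j - p)) ?_ ?_ ?_ ?_
    · intro p hp
      rw [Finset.mem_range] at hp
      rw [Finset.mem_filter, Finset.mem_product, Finset.mem_range, Finset.mem_range]
      dsimp only
      omega
    · intro p _ p' _ h
      exact (Prod.mk.injEq _ _ _ _ ▸ h : _ ∧ _).1
    · intro i hi
      rw [Finset.mem_filter, Finset.mem_product, Finset.mem_range, Finset.mem_range] at hi
      refine ⟨i.1, Finset.mem_range.2 (by omega), ?_⟩
      ext
      · rfl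
      · dsimp only
        omega
    · intro p hp
      rw [Finset.mem_range] at hp
      dsimp only
      rw [show p + (j - p) = j by omega]
  rw [Finset.sum_congr rfl h1, Finset.sum_comm]
  refine Finset.sum_congr rfl (fun i hi => ?_)
  rw [Finset.mem_product, Finset.mem_range, Finset.mem_range] at hi
  by_cases h2 : i.1 + i.2 ∈ Finset.range (2 * d + 1)
  · rw [Finset.sum_ite_eq, if_pos h2]
  · rw [Finset.sum_ite_eq, if_neg h2]
    rw [Finset.mem_range] at h2
    rw [X.hodge_eq_zero (by omega)]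
    simp

/-- the mixed term vanishes by the symmetry `h^{p,q} = h^{q,p}` -/
theorem mixed_sum (X : HL d V) :
    ∑ p ∈ Finset.range (d + 1), ∑ q ∈ Finset.range (d + 1),
      (-1 : ℚ) ^ (p + q) * (((p : ℚ) - q) * ((p : ℚ) + q - d)) * X.hodge p q = 0 := by
  have h : ∑ p ∈ Finset.range (d + 1), ∑ q ∈ Finset.range (d + 1),
      (-1 : ℚ) ^ (p + q) * (((p : ℚ) - q) * ((p : ℚ) + q - d)) * X.hodge p q =
      ∑ p ∈ Finset.range (d + 1), ∑ q ∈ Finset.range (d + 1),
      -((-1 : ℚ) ^ (p + q) * (((p : ℚ) - q) * ((p : ℚ) + q - d)) * X.hodge p q) := by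
    rw [Finset.sum_comm]
    refine Finset.sum_congr rfl (fun p _ => Finset.sum_congr rfl (fun q _ => ?_))
    rw [X.hodge_symm q p, add_comm q p]
    ring
  simp only [Finset.sum_neg_distrib] at h
  linarith

theorem moment_aux (X : HL d V) (R : X.LibgoberWood) :
    3 * ∑ j ∈ Finset.range (2 * d + 1), (-1 : ℚ) ^ j * ((j : ℚ) - d) ^ 2 * X.betti j -
        2 * R.c1c =
      ∑ p ∈ Finset.range (d + 1), ∑ q ∈ Finset.range (d + 1),
        ((-1 : ℚ) ^ ((p : ℤ) - q).natAbs * (d - 3 * (((p : ℤ) - q : ℤ) : ℚ) ^ 2)) *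
          X.hodge p q := by
  have h1 := R.formula
  have h2 := X.mixed_sum
  have h3 := X.degree_sum (fun j => (-1 : ℚ) ^ j * ((j : ℚ) - d) ^ 2)
  have hs : ∀ p q : ℕ, (-1 : ℚ) ^ ((p : ℤ) - q).natAbs = (-1 : ℚ) ^ (p + q) := by
    intro p q
    rcases Nat.even_or_odd (p + q) with he | ho
    · rw [he.neg_one_pow, Even.neg_one_pow]
      rw [Int.natAbs_even, Int.even_sub]
      rw [Nat.even_add] at he
      exact_mod_cast he
    · rw [ho.neg_one_pow, Odd.neg_one_pow]
      rw [Int.natAbs_odd, ← Int.not_even_iff_odd, Int.even_sub]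
      rw [← Nat.not_even_iff_odd, Nat.even_add] at ho
      exact_mod_cast ho
  rw [← h3]
  unfold LibgoberWood.c1c
  have h4 : 3 * ∑ p ∈ Finset.range (d + 1), ∑ q ∈ Finset.range (d + 1),
      (-1 : ℚ) ^ (p + q) * (2 * p - d) ^ 2 * X.hodge p q =
      3 * ∑ p ∈ Finset.range (d + 1), ∑ q ∈ Finset.range (d + 1),
        (fun j : ℕ => (-1 : ℚ) ^ j * ((j : ℚ) - d) ^ 2) (p + q) * X.hodge p q +
      d * ∑ p ∈ Finset.range (d + 1), ∑ q ∈ Finset.range (d + 1),
        (-1 : ℚ) ^ (p + q) * X.hodge p q +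
      6 * ∑ p ∈ Finset.range (d + 1), ∑ q ∈ Finset.range (d + 1),
        (-1 : ℚ) ^ (p + q) * (((p : ℚ) - q) * ((p : ℚ) + q - d)) * X.hodge p q -
      ∑ p ∈ Finset.range (d + 1), ∑ q ∈ Finset.range (d + 1),
        ((-1 : ℚ) ^ ((p : ℤ) - q).natAbs * (d - 3 * (((p : ℤ) - q : ℤ) : ℚ) ^ 2)) *
          X.hodge p q := by
    simp only [Finset.mul_sum, ← Finset.sum_add_distrib, ← Finset.sum_sub_distrib]
    refine Finset.sum_congr rfl (fun p _ => Finset.sum_congr rfl (fun q _ => ?_))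
    rw [hs]
    push_cast
    ring
  linarith

/-- The second moment of the Betti numbers, corrected by `c₁ c_{d-1}`, is invariant. -/
theorem moment (X : HL d V) (X' : HL d V') (R : X.LibgoberWood)
    (R' : X'.LibgoberWood) (u : V ≃ₗ[ℚ] V') (hu : X.IsHodge X' u.toLinearMap) :
    3 * ∑ j ∈ Finset.range (2 * d + 1), (-1 : ℚ) ^ j * ((j : ℚ) - d) ^ 2 * X.betti j -
        2 * R.c1c =
      3 * ∑ j ∈ Finset.range (2 * d + 1), (-1 : ℚ) ^ j * ((j : ℚ) - d) ^ 2 * X'.betti j -
        2 * R'.c1c := by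
  rw [moment_aux, moment_aux]
  exact X.weight_sum X' u hu (fun c => (-1 : ℚ) ^ c.natAbs * (d - 3 * (c : ℚ) ^ 2))

/-- The moment relation of the Betti numbers. -/
theorem moment_betti {X : HL d V} {X' : HL d V'} (R : X.LibgoberWood) (R' : X'.LibgoberWood)
    (u : V ≃ₗ[ℚ] V') (hu : X.IsHodge X' u.toLinearMap) (hR : R.c1c = R'.c1c) :
    ∑ j ∈ Finset.range (2 * d + 1), (-1 : ℚ) ^ j * ((j : ℚ) - d) ^ 2 * X.betti j =
      ∑ j ∈ Finset.range (2 * d + 1), (-1 : ℚ) ^ j * ((j : ℚ) - d) ^ 2 * X'.betti j := by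
  have h := X.moment X' R R' u hu
  rw [hR] at h
  linarith

/-- Hodge numbers and isomorphisms which respect the degrees and `p - q`. -/
theorem hodge_of_equiv (X : HL d V) (X' : HL d V') (u : V ≃ₗ[ℚ] V')
    (hu : X.IsHodge X' u.toLinearMap) (hp : ∀ j x, u (X.pr j x) = X'.pr j (u x)) (p q : ℕ) :
    X.hodge p q = X'.hodge p q := by
  have h1 : ∀ x, u.toLinearMap.baseChange ℂ (X.hp p q x) =
      X'.hp p q (u.toLinearMap.baseChange ℂ x) := by
    intro x
    have h2 : u.toLinearMap.baseChange ℂ ((X.pr (p + q)).baseChange ℂ x) =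
        (X'.pr (p + q)).baseChange ℂ (u.toLinearMap.baseChange ℂ x) := by
      rw [← LinearMap.comp_apply, ← LinearMap.baseChange_comp, ← LinearMap.comp_apply,
        ← LinearMap.baseChange_comp]
      have h3 : u.toLinearMap ∘ₗ X.pr (p + q) = X'.pr (p + q) ∘ₗ u.toLinearMap :=
        LinearMap.ext (fun y => hp _ y)
      rw [h3]
    rw [← X.col_prC rfl x, hu, h2, X'.col_prC rfl]
  have h2 := trace_conj_equiv u (X.hp p q) (X'.hp p q) h1
  rw [← X.hodge_eq_trace, ← X'.hodge_eq_trace] at h2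
  exact_mod_cast h2

end HL

end Pool.Agent.Lib.OrlovNef
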