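import Pool.Agent.Lib.OrlovTate.Main

/-!
# Orlov's conjecture in dimension five, when the canonical class comes from a base

`C` is a `ℚ`-linear category with an additive action `X ↦ X⟦n⟧` of `ℤ` (polarizable rational Hodge
structures, or Chow motives with rational coefficients over a subfield of `ℂ`, and the Tate twists),
`T` is its realization in total cohomology, `M`, `M'` are the objects of two smooth projective
varieties of dimension `d`, `X` and `X'` are the Hodge-Lefschetz data on their cohomology, and `P`,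
`P'` are the cup products with nef classes (the pullbacks of an ample class of a base, for example
multiples of `± c₁` if these are semiample).  By Orlov, a derived equivalence gives an isomorphism
`e` between `M` and `M'` in the orbit category `Hom(X, Y) = ⨁ n : ℤ, Hom_C(X, Y⟦n⟧)`, which preserves
the generalised Mukai pairings and commutes with the nef classes.  In dimension five all graded
pieces of the primitive parts `P_m = ker N ^ (m + 1) / (ker N ^ m + im N)` are found from those in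
`K`, up to one unknown Betti number in `P_0`, which is found from the formula of Libgober and Wood.
-/

set_option autoImplicit false

open CategoryTheory

namespace Pool.Agent.Lib.OrlovTate.SemiampleFivefolds

open Pool.Agent.Lib.OrlovSig Pool.Agent.Lib.OrlovNef Pool.Agent.Lib.MP_5c0b30_ag
  Pool.Agent.Lib.OrlovRel Pool.Agent.Lib.OrlovNef.HL

universe v u w

theorem result {C : Type u} [Category.{v} C] [Preadditive C] [Linear ℚ C] [HasShift C ℤ]
    [∀ n : ℤ, (shiftFunctor C n).Additive] {W : C → Type w} [∀ X, AddCommGroup (W X)]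
    [∀ X, Module ℚ (W X)] (T : TotalRealization C W) {d : ℕ} {M M' : C}
    [FiniteDimensional ℚ (W M)] [FiniteDimensional ℚ (W M')] (X : HL d (W M))
    (X' : HL d (W M')) (hX : Standard T X) (hX' : Standard T X')
    (h₁₁ : Corr T X X) (h₁₂ : Corr T X X') (h₂₁ : Corr T X' X) (h₂₂ : Corr T X' X')
    (hM : T.TrivialRadical M) (hM' : T.TrivialRadical M') (P : X.Nef) (P' : X'.Nef)
    (hP : ∃ f : M ⟶ M⟦(1 : ℤ)⟧, T.act f = P.op) (hP' : ∃ f : M' ⟶ M'⟦(1 : ℤ)⟧, T.act f = P'.op)
    (e : OrbitEquiv M M')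
    (he : ∀ x y : W M, X'.mukai (T.total e.hom x) (T.total e.hom y) = X.mukai x y)
    (hN : ∀ x : W M, T.total e.hom (P.op x) = P'.op (T.total e.hom x))
    (R : X.LibgoberWood) (R' : X'.LibgoberWood)
    (hR : X.pair R.one (X.can R.chern) = X'.pair R'.one (X'.can R'.chern))
    (A : Submodule ℚ (W M)) (A' : Submodule ℚ (W M'))
    (hA : ∀ a ∈ A, X.pr 2 a = a ∧ P.op a = 0) (hA' : ∀ a ∈ A', X'.pr 2 a = a ∧ P'.op a = 0)
    (hAA' : AlgProducts T X X' A A') (h₂ : AlgTwo T P P' A A') (K : Set (ℕ × ℕ))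
    (h₀ : (0, 0) ∈ K) (hK : ∀ t ∈ K, AlgPrim T P P' t.1 {t.2})
    (hc : (d ≤ 5 ∧ (0, 1) ∈ K ∧ (1, 0) ∈ K ∧ (1, 1) ∈ K ∧ (2, 0) ∈ K) ∨
      ∀ m ≤ d, ∀ e < 2, (∀ i j, m + i ≤ d → m + j ≤ d → i % 2 = e → j % 2 = e →
          block (d - m) i = block (d - m) j → (m, i) ∉ K → (m, j) ∉ K → (m, i) ≠ (0, 2) →
          (m, j) ≠ (0, 2) → i = j) ∨
        ((m, e) ∈ K ∧ ∀ j, 1 < j → m + j < d → j % 2 = e → (m, j) ≠ (0, 2) → NoPrim P m j)) :
    (∃ i : M ≅ M', ∀ x, T.act (ShiftedHom.mk₀ (0 : ℤ) rfl i.hom) (P.op x) =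
      P'.op (T.act (ShiftedHom.mk₀ (0 : ℤ) rfl i.hom) x)) ∧
    ∀ p q, X.hodge p q = X'.hodge p q := by
  let u : W M ≃ₗ[ℚ] W M' := LinearEquiv.ofLinearMap (T.total e.hom) (T.total e.inv)
    (T.total_inv_hom e) (T.total_hom_inv e)
  have hu : u.toLinearMap ∈ T.alg M M' := T.total_mem e.hom
  have hu' : u.symm.toLinearMap ∈ T.alg M' M := T.total_mem e.inv
  have hPa : P.op ∈ T.alg M M := by
    obtain ⟨f, hf⟩ := hP
    rw [← hf]
    exact T.act_mem f
  have hPa' : P'.op ∈ T.alg M' M' := by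
    obtain ⟨f, hf⟩ := hP'
    rw [← hf]
    exact T.act_mem f
  refine iso_of_moment hX hX' h₁₁ h₁₂ h₂₁ h₂₂ hM hM' hPa hPa' u hu hu' he hN R R' hR A A' hA hA'
    hAA' h₂ K h₀ hK ?_
  rcases hc with ⟨hd, h01, h10, h11, h20⟩ | hc
  · intro m hm e _
    refine Or.inl (fun i j hi hj hie hje hb hiK hjK hi2 hj2 => ?_)
    have n1 : ∀ i, (m, i) ∉ K → ¬ (m = 0 ∧ i = 0) ∧ ¬ (m = 0 ∧ i = 1) ∧ ¬ (m = 1 ∧ i = 0) ∧
        ¬ (m = 1 ∧ i = 1) ∧ ¬ (m = 2 ∧ i = 0) := by
      intro i hi
      refine ⟨?_, ?_, ?_, ?_, ?_⟩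
      · rintro ⟨rfl, rfl⟩
        exact hi h₀
      · rintro ⟨rfl, rfl⟩
        exact hi h01
      · rintro ⟨rfl, rfl⟩
        exact hi h10
      · rintro ⟨rfl, rfl⟩
        exact hi h11
      · rintro ⟨rfl, rfl⟩
        exact hi h20
    have n2 := n1 i hiK
    have n3 := n1 j hjK
    rw [ne_eq, Prod.mk.injEq] at hi2 hj2
    unfold block at hb
    split_ifs at hb <;> omega
  · exact hc

end Pool.Agent.Lib.OrlovTate.SemiampleFivefolds
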