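import Pool.Agent.Lib.OrlovRel.Maps

/-!
# Equivalences modulo classes with exterior products in the ring
-/

set_option autoImplicit false

open scoped TensorProduct ComplexOrder

namespace Pool.Agent.Lib.OrlovRel

open Pool.Agent.Lib.OrlovSig Pool.Agent.Lib.OrlovNef Pool.Agent.Lib.OrlovChow HL

section LinAlg

variable {U : Type*} [AddCommGroup U] [Module ℚ U] [FiniteDimensional ℚ U]

/-- A space of functionals that separates the points of `B` contains extensions of all functionals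
of `B`. -/
theorem exists_extend (Φ : Submodule ℚ (Module.Dual ℚ U)) (B : Submodule ℚ U)
    (h : ∀ b ∈ B, (∀ φ ∈ Φ, φ b = 0) → b = 0) (ψ : Module.Dual ℚ B) :
    ∃ φ ∈ Φ, ∀ b : B, φ (b : U) = ψ b := by
  have h1 : (Φ.map B.subtype.dualMap).dualCoannihilator = ⊥ := by
    rw [eq_bot_iff]
    intro b hb
    rw [Submodule.mem_dualCoannihilator] at hb
    rw [Submodule.mem_bot]
    apply Subtype.ext
    refine h b b.2 (fun φ hφ => ?_)
    exact hb _ (Submodule.mem_map_of_mem hφ)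
  have h2 : Φ.map B.subtype.dualMap = ⊤ := by
    rw [← Subspace.dualCoannihilator_dualAnnihilator_eq (W := Φ.map B.subtype.dualMap), h1,
      Submodule.dualAnnihilator_bot]
  have h3 : ψ ∈ Φ.map B.subtype.dualMap := by
    rw [h2]
    exact Submodule.mem_top
  obtain ⟨φ, hφ, e⟩ := Submodule.mem_map.1 h3
  exact ⟨φ, hφ, fun b => LinearMap.congr_fun e b⟩

/-- A projection onto `B` with coefficients in `Φ`. -/
theorem exists_retract (Φ : Submodule ℚ (Module.Dual ℚ U)) (B : Submodule ℚ U)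
    (h : ∀ b ∈ B, (∀ φ ∈ Φ, φ b = 0) → b = 0) :
    ∃ (n : ℕ) (φ : Fin n → Module.Dual ℚ U) (b : Fin n → B), (∀ i, φ i ∈ Φ) ∧
      ∀ x : B, ∑ i, φ i (x : U) • b i = x := by
  set b := Module.finBasis ℚ B with hb
  choose φ hφ hφ' using fun i => exists_extend Φ B h (b.coord i)
  refine ⟨_, φ, b, hφ, fun x => ?_⟩
  simp only [hφ']
  exact b.sum_repr x

end LinAlg

variable {d : ℕ} {V V' : Type*} [AddCommGroup V] [Module ℚ V] [AddCommGroup V'] [Module ℚ V']

section Glue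

variable {p : V →ₗ[ℚ] V} {p' : V' →ₗ[ℚ] V'} {B : Submodule ℚ V} {B' : Submodule ℚ V'}
  {r : V →ₗ[ℚ] B} {r' : V' →ₗ[ℚ] B'} {f : V →ₗ[ℚ] V'} {k : V' →ₗ[ℚ] V}

/-- The hypotheses of the gluing on one side: `p` is idempotent, `B` is a subspace of its image with
retraction `r`. -/
structure Retr (p : V →ₗ[ℚ] V) (B : Submodule ℚ V) (r : V →ₗ[ℚ] B) : Prop where
  idem : ∀ x, p (p x) = p x
  fix : ∀ b ∈ B, p b = b
  retr : ∀ b : B, r (b : V) = b
  comp : ∀ x, r (p x) = r x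

/-- The complement. -/
def Retr.q (p : V →ₗ[ℚ] V) (B : Submodule ℚ V) (r : V →ₗ[ℚ] B) : V →ₗ[ℚ] V :=
  p - B.subtype ∘ₗ r

theorem Retr.q_apply (p : V →ₗ[ℚ] V) (B : Submodule ℚ V) (r : V →ₗ[ℚ] B) (x : V) :
    Retr.q p B r x = p x - (r x : V) := rfl

theorem Retr.q_mem (h : Retr p B r) {b : V} (hb : b ∈ B) : Retr.q p B r b = 0 := by
  rw [Retr.q_apply, h.fix b hb]
  have h1 := h.retr ⟨b, hb⟩
  simp only at h1
  rw [h1, sub_self]

theorem Retr.p_q (h : Retr p B r) (x : V) : p (Retr.q p B r x) = Retr.q p B r x := by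
  rw [Retr.q_apply, map_sub, h.idem, h.fix _ (r x).2]

theorem Retr.r_q (h : Retr p B r) (x : V) : r (Retr.q p B r x) = 0 := by
  rw [Retr.q_apply, map_sub, h.comp, h.retr, sub_self]

theorem Retr.q_q (h : Retr p B r) (x : V) :
    Retr.q p B r (Retr.q p B r x) = Retr.q p B r x := by
  rw [Retr.q_apply p B r (Retr.q p B r x), h.p_q, h.r_q, ZeroMemClass.coe_zero, sub_zero]

theorem glue_fix (h : Retr p B r) (h' : Retr p' B' r') (hfB : ∀ b ∈ B, f b ∈ B')
    (hkf : ∀ x, k (f x) - p x ∈ B) (hfk : ∀ y, f (k y) - p' y ∈ B') (x : V) :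
    p' (f (p x)) = f (p x) := by
  have h1 := hkf (p x)
  rw [h.idem] at h1
  have h2 := hfB _ h1
  have h3 := hfk (f (p x))
  have h4 : f (p x) - p' (f (p x)) ∈ B' := by
    have e : f (p x) - p' (f (p x)) = (f (k (f (p x))) - p' (f (p x))) -
        f (k (f (p x)) - p x) := by
      rw [map_sub]
      abel
    rw [e]
    exact B'.sub_mem h3 h2
  have h5 := h'.fix _ h4
  rw [map_sub, h'.idem, sub_self] at h5
  rw [eq_comm, ← sub_eq_zero]
  exact h5.symm

theorem glue_q (h : Retr p B r) (h' : Retr p' B' r') (hfB : ∀ b ∈ B, f b ∈ B')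
    (hkB : ∀ b ∈ B', k b ∈ B) (hkf : ∀ x, k (f x) - p x ∈ B) (hfk : ∀ y, f (k y) - p' y ∈ B')
    (x : V) : Retr.q p B r (k (Retr.q p' B' r' (f (Retr.q p B r x)))) = Retr.q p B r x := by
  set z := Retr.q p B r x with hz
  have hpz : p z = z := h.p_q x
  have h1 : p' (f z) = f z := by
    have h2 := glue_fix h h' hfB hkf hfk z
    rwa [hpz] at h2
  have h2 : k (Retr.q p' B' r' (f z)) = z + ((k (f z) - p z) - k (r' (f z) : V')) := by
    rw [Retr.q_apply p' B' r' (f z), h1, map_sub, hpz]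
    abel
  have h3 : (k (f z) - p z) - k (r' (f z) : V') ∈ B :=
    B.sub_mem (hkf z) (hkB _ (r' (f z)).2)
  rw [h2, map_add, h.q_mem h3, add_zero, hz, h.q_q]

theorem glue_comp (h' : Retr p' B' r')
    (k1 : ∀ x, Retr.q p B r (k (Retr.q p' B' r' (f (Retr.q p B r x)))) = Retr.q p B r x)
    (θ : B →ₗ[ℚ] B') (θ' : B' →ₗ[ℚ] B) (hθ : ∀ b, θ' (θ b) = b) :
    (Retr.q p B r ∘ₗ k ∘ₗ Retr.q p' B' r' + B.subtype ∘ₗ θ' ∘ₗ r') ∘ₗ
      (Retr.q p' B' r' ∘ₗ f ∘ₗ Retr.q p B r + B'.subtype ∘ₗ θ ∘ₗ r) = p := by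
  refine LinearMap.ext (fun x => ?_)
  change Retr.q p B r (k (Retr.q p' B' r' (Retr.q p' B' r' (f (Retr.q p B r x)) +
      (θ (r x) : V')))) + (θ' (r' (Retr.q p' B' r' (f (Retr.q p B r x)) + (θ (r x) : V'))) : V) =
    p x
  rw [map_add (Retr.q p' B' r'), h'.q_q, h'.q_mem (θ (r x)).2, add_zero, k1, map_add r', h'.r_q,
    zero_add, h'.retr, hθ, Retr.q_apply, sub_add_cancel]

variable [FiniteDimensional ℚ V] [FiniteDimensional ℚ V']

theorem trace_retr (h : Retr p B r) :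
    LinearMap.trace ℚ V p = LinearMap.trace ℚ V (Retr.q p B r) + Module.finrank ℚ B := by
  have e : p = Retr.q p B r + B.subtype ∘ₗ r := by
    unfold Retr.q
    rw [sub_add_cancel]
  conv_lhs => rw [e]
  rw [map_add]
  congr 1
  rw [LinearMap.trace_comp_comm']
  have h2 : r ∘ₗ B.subtype = LinearMap.id := LinearMap.ext (fun b => h.retr b)
  rw [h2, LinearMap.trace_id]

theorem trace_idem (h : Retr p B r) :
    (Module.finrank ℚ (LinearMap.range p) : ℚ) = LinearMap.trace ℚ V p := by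
  have h1 : IsIdempotentElem p := LinearMap.ext (fun x => h.idem x)
  exact ((LinearMap.IsIdempotentElem.isProj_range _ h1).trace).symm

/-- The gluing. -/
theorem glue_tate (h : Retr p B r) (h' : Retr p' B' r') (hfB : ∀ b ∈ B, f b ∈ B')
    (hkB : ∀ b ∈ B', k b ∈ B) (hkf : ∀ x, k (f x) - p x ∈ B) (hfk : ∀ y, f (k y) - p' y ∈ B')
    (hrank : Module.finrank ℚ (LinearMap.range p) = Module.finrank ℚ (LinearMap.range p')) :
    ∃ θ : B ≃ₗ[ℚ] B',
      (Retr.q p B r ∘ₗ k ∘ₗ Retr.q p' B' r' + B.subtype ∘ₗ θ.symm.toLinearMap ∘ₗ r') ∘ₗ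
        (Retr.q p' B' r' ∘ₗ f ∘ₗ Retr.q p B r + B'.subtype ∘ₗ θ.toLinearMap ∘ₗ r) = p ∧
      (Retr.q p' B' r' ∘ₗ f ∘ₗ Retr.q p B r + B'.subtype ∘ₗ θ.toLinearMap ∘ₗ r) ∘ₗ
        (Retr.q p B r ∘ₗ k ∘ₗ Retr.q p' B' r' + B.subtype ∘ₗ θ.symm.toLinearMap ∘ₗ r') = p' := by
  have k1 := glue_q h h' hfB hkB hkf hfk
  have k2 := glue_q h' h hkB hfB hfk hkf
  have e1 : (Retr.q p B r ∘ₗ k ∘ₗ Retr.q p' B' r') ∘ₗ
      (Retr.q p' B' r' ∘ₗ f ∘ₗ Retr.q p B r) = Retr.q p B r := by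
    refine LinearMap.ext (fun x => ?_)
    simp only [LinearMap.comp_apply, h'.q_q]
    exact k1 x
  have e2 : (Retr.q p' B' r' ∘ₗ f ∘ₗ Retr.q p B r) ∘ₗ
      (Retr.q p B r ∘ₗ k ∘ₗ Retr.q p' B' r') = Retr.q p' B' r' := by
    refine LinearMap.ext (fun x => ?_)
    simp only [LinearMap.comp_apply, h.q_q]
    exact k2 x
  have e3 : LinearMap.trace ℚ V (Retr.q p B r) = LinearMap.trace ℚ V' (Retr.q p' B' r') := by
    rw [← e1, LinearMap.trace_comp_comm', e2]
  have e4 : Module.finrank ℚ B = Module.finrank ℚ B' := by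
    have a1 := trace_idem h
    have a2 := trace_idem h'
    rw [trace_retr h] at a1
    rw [trace_retr h', ← hrank, a1, e3] at a2
    have a3 : (Module.finrank ℚ B : ℚ) = Module.finrank ℚ B' := by linarith
    exact_mod_cast a3
  set θ := LinearEquiv.ofFinrankEq B B' e4 with hθ
  exact ⟨θ, glue_comp h' k1 θ.toLinearMap θ.symm.toLinearMap (fun b => θ.symm_apply_apply b),
    glue_comp h k2 θ.symm.toLinearMap θ.toLinearMap (fun b => θ.apply_symm_apply b)⟩

end Glue

namespace Motivic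

variable {X : HL d V} {X' : HL d V'} {S : Subalgebra ℚ (Module.End ℚ (V × V'))}

/-- The functionals whose exterior products with elements of `B` and `B'` are in the ring. -/
def funct₁ (S : Subalgebra ℚ (Module.End ℚ (V × V'))) (B : Submodule ℚ V)
    (B' : Submodule ℚ V') : Submodule ℚ (Module.Dual ℚ V) where
  carrier := {φ | (∀ b ∈ B, b11 V' (φ.smulRight b) ∈ S) ∧ ∀ b ∈ B', b21 (φ.smulRight b) ∈ S}
  add_mem' := fun {φ ψ} hφ hψ => by
    refine ⟨fun b hb => ?_, fun b hb => ?_⟩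
    · have e : (φ + ψ).smulRight b = φ.smulRight b + ψ.smulRight b :=
        LinearMap.ext (fun x => add_smul _ _ _)
      rw [e, b11_add]
      exact Subalgebra.add_mem _ (hφ.1 b hb) (hψ.1 b hb)
    · have e : (φ + ψ).smulRight b = φ.smulRight b + ψ.smulRight b :=
        LinearMap.ext (fun x => add_smul _ _ _)
      rw [e, b21_add]
      exact Subalgebra.add_mem _ (hφ.2 b hb) (hψ.2 b hb)
  zero_mem' := by
    refine ⟨fun b _ => ?_, fun b _ => ?_⟩
    · have e : b11 V' ((0 : Module.Dual ℚ V).smulRight b) = 0 :=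
        LinearMap.ext (fun x => Prod.ext (zero_smul ℚ b) rfl)
      rw [e]
      exact Subalgebra.zero_mem _
    · have e : b21 ((0 : Module.Dual ℚ V).smulRight b) = 0 :=
        LinearMap.ext (fun x => Prod.ext rfl (zero_smul ℚ b))
      rw [e]
      exact Subalgebra.zero_mem _
  smul_mem' := fun c φ hφ => by
    refine ⟨fun b hb => ?_, fun b hb => ?_⟩
    · have e : (c • φ).smulRight b = c • φ.smulRight b :=
        LinearMap.ext (fun x => mul_smul _ _ _)
      rw [e, b11_smul]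
      exact Subalgebra.smul_mem _ (hφ.1 b hb) c
    · have e : (c • φ).smulRight b = c • φ.smulRight b :=
        LinearMap.ext (fun x => mul_smul _ _ _)
      rw [e, b21_smul]
      exact Subalgebra.smul_mem _ (hφ.2 b hb) c

/-- The same for the second factor. -/
def funct₂ (S : Subalgebra ℚ (Module.End ℚ (V × V'))) (B : Submodule ℚ V)
    (B' : Submodule ℚ V') : Submodule ℚ (Module.Dual ℚ V') where
  carrier := {φ | (∀ b ∈ B', b22 V (φ.smulRight b) ∈ S) ∧ ∀ b ∈ B, b12 (φ.smulRight b) ∈ S}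
  add_mem' := fun {φ ψ} hφ hψ => by
    refine ⟨fun b hb => ?_, fun b hb => ?_⟩
    · have e : (φ + ψ).smulRight b = φ.smulRight b + ψ.smulRight b :=
        LinearMap.ext (fun x => add_smul _ _ _)
      rw [e, b22_add]
      exact Subalgebra.add_mem _ (hφ.1 b hb) (hψ.1 b hb)
    · have e : (φ + ψ).smulRight b = φ.smulRight b + ψ.smulRight b :=
        LinearMap.ext (fun x => add_smul _ _ _)
      rw [e, b12_add]
      exact Subalgebra.add_mem _ (hφ.2 b hb) (hψ.2 b hb)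
  zero_mem' := by
    refine ⟨fun b _ => ?_, fun b _ => ?_⟩
    · have e : b22 V ((0 : Module.Dual ℚ V').smulRight b) = 0 :=
        LinearMap.ext (fun x => Prod.ext rfl (zero_smul ℚ b))
      rw [e]
      exact Subalgebra.zero_mem _
    · have e : b12 ((0 : Module.Dual ℚ V').smulRight b) = 0 :=
        LinearMap.ext (fun x => Prod.ext (zero_smul ℚ b) rfl)
      rw [e]
      exact Subalgebra.zero_mem _
  smul_mem' := fun c φ hφ => by
    refine ⟨fun b hb => ?_, fun b hb => ?_⟩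
    · have e : (c • φ).smulRight b = c • φ.smulRight b :=
        LinearMap.ext (fun x => mul_smul _ _ _)
      rw [e, b22_smul]
      exact Subalgebra.smul_mem _ (hφ.1 b hb) c
    · have e : (c • φ).smulRight b = c • φ.smulRight b :=
        LinearMap.ext (fun x => mul_smul _ _ _)
      rw [e, b12_smul]
      exact Subalgebra.smul_mem _ (hφ.2 b hb) c

/-- The exterior products of classes of `B` and `B'` are in the ring. -/
structure Prods (X : HL d V) (X' : HL d V') (S : Subalgebra ℚ (Module.End ℚ (V × V')))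
    (B : Submodule ℚ V) (B' : Submodule ℚ V') : Prop where
  p₁₁ : ∀ a ∈ B, ∀ b ∈ B, b11 V' ((X.pair a).smulRight b) ∈ S
  p₂₁ : ∀ a ∈ B, ∀ b ∈ B', b21 ((X.pair a).smulRight b) ∈ S
  p₂₂ : ∀ a ∈ B', ∀ b ∈ B', b22 V ((X'.pair a).smulRight b) ∈ S
  p₁₂ : ∀ a ∈ B', ∀ b ∈ B, b12 ((X'.pair a).smulRight b) ∈ S

/-- The functionals separate the points of `B`. -/
theorem separate₁ (h : Motivic X X' S) {B : Submodule ℚ V} {B' : Submodule ℚ V'}
    (hp : Prods X X' S B B') (b : V) (hb : b ∈ B) (h0 : ∀ φ ∈ funct₁ S B B', φ b = 0) :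
    b = 0 := by
  by_contra hne
  obtain ⟨z, hz, e⟩ := h.reg₁ (hp.p₁₁ b hb b hb)
  obtain ⟨x, hx⟩ : ∃ x, X.pair b x ≠ 0 := by
    by_contra hx
    push Not at hx
    exact hne (X.pair_nondeg b hx)
  have h1 := LinearMap.congr_fun e x
  simp only [Module.End.mul_apply, LinearMap.smulRight_apply, map_smul] at h1
  have h2 : X.pair b (z b) = 0 := by
    refine h0 (X.pair b ∘ₗ z) ⟨fun c hc => ?_, fun c hc => ?_⟩
    · have e1 : b11 V' ((X.pair b ∘ₗ z).smulRight c) =
          b11 V' ((X.pair b).smulRight c) * b11 V' z := rfl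
      rw [e1]
      exact Subalgebra.mul_mem _ (hp.p₁₁ b hb c hc) hz
    · have e1 : b21 ((X.pair b ∘ₗ z).smulRight c) =
          b21 ((X.pair b).smulRight c) * b11 V' z := rfl
      rw [e1]
      exact Subalgebra.mul_mem _ (hp.p₂₁ b hb c hc) hz
  rw [h2, zero_smul, smul_zero, eq_comm, smul_eq_zero] at h1
  rcases h1 with h1 | h1
  · exact hx h1
  · exact hne h1

/-- The functionals separate the points of `B'`. -/
theorem separate₂ (h : Motivic X X' S) {B : Submodule ℚ V} {B' : Submodule ℚ V'}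
    (hp : Prods X X' S B B') (b : V') (hb : b ∈ B') (h0 : ∀ φ ∈ funct₂ S B B', φ b = 0) :
    b = 0 := by
  by_contra hne
  obtain ⟨z, hz, e⟩ := h.reg₂ (hp.p₂₂ b hb b hb)
  obtain ⟨x, hx⟩ : ∃ x, X'.pair b x ≠ 0 := by
    by_contra hx
    push Not at hx
    exact hne (X'.pair_nondeg b hx)
  have h1 := LinearMap.congr_fun e x
  simp only [Module.End.mul_apply, LinearMap.smulRight_apply, map_smul] at h1
  have h2 : X'.pair b (z b) = 0 := by
    refine h0 (X'.pair b ∘ₗ z) ⟨fun c hc => ?_, fun c hc => ?_⟩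
    · have e1 : b22 V ((X'.pair b ∘ₗ z).smulRight c) =
          b22 V ((X'.pair b).smulRight c) * b22 V z := rfl
      rw [e1]
      exact Subalgebra.mul_mem _ (hp.p₂₂ b hb c hc) hz
    · have e1 : b12 ((X'.pair b ∘ₗ z).smulRight c) =
          b12 ((X'.pair b).smulRight c) * b22 V z := rfl
      rw [e1]
      exact Subalgebra.mul_mem _ (hp.p₁₂ b hb c hc) hz
  rw [h2, zero_smul, smul_zero, eq_comm, smul_eq_zero] at h1
  rcases h1 with h1 | h1
  · exact hx h1
  · exact hne h1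

theorem sum_mem₁ {n : ℕ} {B : Submodule ℚ V} {B' : Submodule ℚ V'}
    {φ : Fin n → Module.Dual ℚ V} (hφ : ∀ i, φ i ∈ funct₁ S B B') (b : Fin n → V)
    (hb : ∀ i, b i ∈ B) : b11 V' (∑ i, (φ i).smulRight (b i)) ∈ S := by
  rw [b11_sum]
  exact Subalgebra.sum_mem _ (fun i _ => (hφ i).1 _ (hb i))

theorem sum_mem₂₁ {n : ℕ} {B : Submodule ℚ V} {B' : Submodule ℚ V'}
    {φ : Fin n → Module.Dual ℚ V} (hφ : ∀ i, φ i ∈ funct₁ S B B') (b : Fin n → V')
    (hb : ∀ i, b i ∈ B') : b21 (∑ i, (φ i).smulRight (b i)) ∈ S := by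
  have e : ∀ s : Finset (Fin n), b21 (∑ i ∈ s, (φ i).smulRight (b i)) ∈ S := by
    intro s
    induction s using Finset.induction_on with
    | empty =>
      rw [Finset.sum_empty]
      have e1 : b21 (0 : V →ₗ[ℚ] V') = 0 := rfl
      rw [e1]
      exact Subalgebra.zero_mem _
    | insert a s has ih =>
      rw [Finset.sum_insert has, b21_add]
      exact Subalgebra.add_mem _ ((hφ a).2 _ (hb a)) ih
  exact e _

theorem sum_mem₂ {n : ℕ} {B : Submodule ℚ V} {B' : Submodule ℚ V'}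
    {φ : Fin n → Module.Dual ℚ V'} (hφ : ∀ i, φ i ∈ funct₂ S B B') (b : Fin n → V')
    (hb : ∀ i, b i ∈ B') : b22 V (∑ i, (φ i).smulRight (b i)) ∈ S := by
  rw [b22_sum]
  exact Subalgebra.sum_mem _ (fun i _ => (hφ i).1 _ (hb i))

theorem sum_mem₁₂ {n : ℕ} {B : Submodule ℚ V} {B' : Submodule ℚ V'}
    {φ : Fin n → Module.Dual ℚ V'} (hφ : ∀ i, φ i ∈ funct₂ S B B') (b : Fin n → V)
    (hb : ∀ i, b i ∈ B) : b12 (∑ i, (φ i).smulRight (b i)) ∈ S := by
  have e : ∀ s : Finset (Fin n), b12 (∑ i ∈ s, (φ i).smulRight (b i)) ∈ S := by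
    intro s
    induction s using Finset.induction_on with
    | empty =>
      rw [Finset.sum_empty]
      have e1 : b12 (0 : V' →ₗ[ℚ] V) = 0 := rfl
      rw [e1]
      exact Subalgebra.zero_mem _
    | insert a s has ih =>
      rw [Finset.sum_insert has, b12_add]
      exact Subalgebra.add_mem _ ((hφ a).2 _ (hb a)) ih
  exact e _

variable [FiniteDimensional ℚ V] [FiniteDimensional ℚ V']

/-- Projectors in degree `i` are equivalent if they are equivalent modulo classes whose exterior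
products are in the ring, and have the same rank. -/
theorem mvn_of_tate (h : Motivic X X' S) (i : ℕ) {B : Submodule ℚ V} {B' : Submodule ℚ V'}
    (hp : Prods X X' S B B') (hB : ∀ b ∈ B, X.pr i b = b) (hB' : ∀ b ∈ B', X'.pr i b = b)
    {f : V →ₗ[ℚ] V'} {k : V' →ₗ[ℚ] V} (hf : b21 f ∈ S) (hk : b12 k ∈ S)
    (hfB : ∀ b ∈ B, f b ∈ B') (hkB : ∀ b ∈ B', k b ∈ B)
    (hkf : ∀ x, k (f x) - X.pr i x ∈ B) (hfk : ∀ y, f (k y) - X'.pr i y ∈ B')
    (hrank : Module.finrank ℚ (LinearMap.range (X.pr i)) =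
      Module.finrank ℚ (LinearMap.range (X'.pr i))) : MvN (h.Q₁.π i) (h.Q₂.π i) := by
  obtain ⟨n, φ, b, hφ, hb⟩ := exists_retract (funct₁ S B B') B (h.separate₁ hp)
  obtain ⟨n', φ', b', hφ', hb'⟩ := exists_retract (funct₂ S B B') B' (h.separate₂ hp)
  have idem : ∀ x, X.pr i (X.pr i x) = X.pr i x := fun x => LinearMap.congr_fun (X.pr_self i) x
  have idem' : ∀ x, X'.pr i (X'.pr i x) = X'.pr i x :=
    fun x => LinearMap.congr_fun (X'.pr_self i) x
  set r : V →ₗ[ℚ] B := (∑ j, (φ j).smulRight (b j)) ∘ₗ X.pr i with hr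
  set r' : V' →ₗ[ℚ] B' := (∑ j, (φ' j).smulRight (b' j)) ∘ₗ X'.pr i with hr'
  have R : Retr (X.pr i) B r := by
    refine ⟨idem, hB, fun c => ?_, fun x => ?_⟩
    · rw [hr, LinearMap.comp_apply, hB _ c.2, LinearMap.sum_apply]
      exact hb c
    · rw [hr, LinearMap.comp_apply, LinearMap.comp_apply, idem]
  have R' : Retr (X'.pr i) B' r' := by
    refine ⟨idem', hB', fun c => ?_, fun x => ?_⟩
    · rw [hr', LinearMap.comp_apply, hB' _ c.2, LinearMap.sum_apply]
      exact hb' c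
    · rw [hr', LinearMap.comp_apply, LinearMap.comp_apply, idem']
  obtain ⟨θ, e1, e2⟩ := glue_tate R R' hfB hkB hkf hfk hrank
  -- the retractions are in the ring
  have m11 : b11 V' (B.subtype ∘ₗ r) ∈ S := by
    have e : B.subtype ∘ₗ r = (∑ j, (φ j).smulRight ((b j : B) : V)) ∘ₗ X.pr i := by
      refine LinearMap.ext (fun x => ?_)
      rw [hr]
      simp only [LinearMap.comp_apply, LinearMap.sum_apply, map_sum, LinearMap.smulRight_apply,
        map_smul, Submodule.subtype_apply]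
    rw [e]
    exact mul₁ (sum_mem₁ hφ _ (fun j => (b j).2)) (h.pr₁ i)
  have m22 : b22 V (B'.subtype ∘ₗ r') ∈ S := by
    have e : B'.subtype ∘ₗ r' = (∑ j, (φ' j).smulRight ((b' j : B') : V')) ∘ₗ X'.pr i := by
      refine LinearMap.ext (fun x => ?_)
      rw [hr']
      simp only [LinearMap.comp_apply, LinearMap.sum_apply, map_sum, LinearMap.smulRight_apply,
        map_smul, Submodule.subtype_apply]
    rw [e]
    exact mul₂ (sum_mem₂ hφ' _ (fun j => (b' j).2)) (h.pr₂ i)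
  have m21 : b21 (B'.subtype ∘ₗ θ.toLinearMap ∘ₗ r) ∈ S := by
    have e : B'.subtype ∘ₗ θ.toLinearMap ∘ₗ r =
        (∑ j, (φ j).smulRight ((θ (b j) : B') : V')) ∘ₗ X.pr i := by
      refine LinearMap.ext (fun x => ?_)
      rw [hr]
      simp only [LinearMap.comp_apply, LinearMap.sum_apply, map_sum, LinearMap.smulRight_apply,
        map_smul, Submodule.subtype_apply, LinearEquiv.coe_coe]
    rw [e, ← b21_mul_b11]
    exact Subalgebra.mul_mem _ (sum_mem₂₁ hφ _ (fun j => (θ (b j)).2)) (h.pr₁ i)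
  have m12 : b12 (B.subtype ∘ₗ θ.symm.toLinearMap ∘ₗ r') ∈ S := by
    have e : B.subtype ∘ₗ θ.symm.toLinearMap ∘ₗ r' =
        (∑ j, (φ' j).smulRight ((θ.symm (b' j) : B) : V)) ∘ₗ X'.pr i := by
      refine LinearMap.ext (fun x => ?_)
      rw [hr']
      simp only [LinearMap.comp_apply, LinearMap.sum_apply, map_sum, LinearMap.smulRight_apply,
        map_smul, Submodule.subtype_apply, LinearEquiv.coe_coe]
    rw [e, ← b12_mul_b22]
    exact Subalgebra.mul_mem _ (sum_mem₁₂ hφ' _ (fun j => (θ.symm (b' j)).2)) (h.pr₂ i)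
  have q11 : b11 V' (Retr.q (X.pr i) B r) ∈ S := by
    have e : Retr.q (X.pr i) B r = X.pr i + (-1 : ℚ) • (B.subtype ∘ₗ r) := by
      unfold Retr.q
      rw [neg_one_smul, sub_eq_add_neg]
    rw [e, b11_add, b11_smul]
    exact Subalgebra.add_mem _ (h.pr₁ i) (Subalgebra.smul_mem _ m11 _)
  have q22 : b22 V (Retr.q (X'.pr i) B' r') ∈ S := by
    have e : Retr.q (X'.pr i) B' r' = X'.pr i + (-1 : ℚ) • (B'.subtype ∘ₗ r') := by
      unfold Retr.q
      rw [neg_one_smul, sub_eq_add_neg]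
    rw [e, b22_add, b22_smul]
    exact Subalgebra.add_mem _ (h.pr₂ i) (Subalgebra.smul_mem _ m22 _)
  refine mvn_of_maps (coe_Q₁_π h i) (coe_Q₂_π h i) (X.pr_self i) (X'.pr_self i) _ _ ?_ ?_ e1 e2
  · rw [b21_add]
    refine Subalgebra.add_mem _ ?_ m21
    have e : b21 (Retr.q (X'.pr i) B' r' ∘ₗ f ∘ₗ Retr.q (X.pr i) B r) =
        b22 V (Retr.q (X'.pr i) B' r') * b21 f * b11 V' (Retr.q (X.pr i) B r) := rfl
    rw [e]
    exact Subalgebra.mul_mem _ (Subalgebra.mul_mem _ q22 hf) q11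
  · rw [b12_add]
    refine Subalgebra.add_mem _ ?_ m12
    have e : b12 (Retr.q (X.pr i) B r ∘ₗ k ∘ₗ Retr.q (X'.pr i) B' r') =
        b11 V' (Retr.q (X.pr i) B r) * b12 k * b22 V (Retr.q (X'.pr i) B' r') := rfl
    rw [e]
    exact Subalgebra.mul_mem _ (Subalgebra.mul_mem _ q11 hk) q22

end Motivic

end Pool.Agent.Lib.OrlovRel
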